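import Pool.Agent.TH861.RGP.Ide

/-! # r-gaps: the bound `∫_0^1 sin(λy)/y (1-y)^a dy ≥ arctan (λ/(a+1))` -/

open Filter Topology Set MeasureTheory

namespace RGP

theorem sinc_int (lam y : ℝ) : lam * Real.sinc (lam * y) = ∫ μ in (0 : ℝ)..lam, Real.cos (μ * y) := by
  by_cases hy : y = 0
  · subst hy
    simp
  · rcases eq_or_ne lam 0 with h | h
    · subst h; simp
    · rw [Real.sinc_of_ne_zero (mul_ne_zero h hy)]
      have h1 : ∀ μ ∈ Set.uIcc (0 : ℝ) lam, HasDerivAt (fun μ : ℝ => Real.sin (μ * y) / y)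
          (Real.cos (μ * y)) μ := by
        intro μ _
        have h2 : HasDerivAt (fun μ : ℝ => μ * y) y μ := by
          simpa using (hasDerivAt_id μ).mul_const y
        have h5 : HasDerivAt (fun μ : ℝ => Real.sin (μ * y) / y) (Real.cos (μ * y) * y / y) μ :=
          h2.sin.div_const y
        rwa [mul_div_cancel_right₀ _ hy] at h5
      rw [intervalIntegral.integral_eq_sub_of_hasDerivAt h1 (by
        apply Continuous.intervalIntegrable
        fun_prop)]
      rw [zero_mul, Real.sin_zero, zero_div, sub_zero]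
      field_simp

theorem expcos {P : ℝ} (hP : 0 < P) (μ Y : ℝ) :
    ∫ y in (0 : ℝ)..Y, Real.cos (μ * y) * Real.exp (-(P * y)) =
      (P + Real.exp (-(P * Y)) * (μ * Real.sin (μ * Y) - P * Real.cos (μ * Y))) / (P ^ 2 + μ ^ 2) := by
  have hD : P ^ 2 + μ ^ 2 ≠ 0 := by positivity
  have h1 : ∀ y ∈ Set.uIcc (0 : ℝ) Y, HasDerivAt
      (fun y : ℝ => Real.exp (-(P * y)) * (μ * Real.sin (μ * y) - P * Real.cos (μ * y)) / (P ^ 2 + μ ^ 2))
      (Real.cos (μ * y) * Real.exp (-(P * y))) y := by
    intro y _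
    have e1 : HasDerivAt (fun y : ℝ => -(P * y)) (-P) y := by
      simpa [neg_mul] using (hasDerivAt_id y).const_mul (-P)
    have e2 : HasDerivAt (fun y : ℝ => μ * y) μ y := by
      simpa using (hasDerivAt_id y).const_mul μ
    have e3 := e1.exp
    have e6 := (e3.mul ((e2.sin.const_mul μ).sub (e2.cos.const_mul P))).div_const (P ^ 2 + μ ^ 2)
    refine e6.congr_deriv ?_
    simp only [Pi.sub_apply]
    field_simp
    ring
  rw [intervalIntegral.integral_eq_sub_of_hasDerivAt h1 (by
    apply Continuous.intervalIntegrable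
    fun_prop)]
  simp only [mul_zero, neg_zero, Real.exp_zero, Real.sin_zero, Real.cos_zero]
  field_simp
  ring

theorem arctan_int {P : ℝ} (hP : 0 < P) (lam : ℝ) :
    ∫ μ in (0 : ℝ)..lam, P / (P ^ 2 + μ ^ 2) = Real.arctan (lam / P) := by
  have h1 : ∀ μ ∈ Set.uIcc (0 : ℝ) lam, HasDerivAt (fun μ : ℝ => Real.arctan (μ / P))
      (P / (P ^ 2 + μ ^ 2)) μ := by
    intro μ _
    have e2 : HasDerivAt (fun μ : ℝ => μ / P) (1 / P) μ := by
      simpa using (hasDerivAt_id μ).div_const P
    have e3 := e2.arctan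
    convert e3 using 1
    have : (P : ℝ) ^ 2 + μ ^ 2 ≠ 0 := by positivity
    have h5 : (1 + (μ / P) ^ 2 : ℝ) ≠ 0 := by positivity
    field_simp
  rw [intervalIntegral.integral_eq_sub_of_hasDerivAt h1 (by
    apply Continuous.intervalIntegrable
    apply Continuous.div continuous_const (by fun_prop)
    intro x
    positivity)]
  simp

theorem EY_lower {P lam : ℝ} (hP : 0 < P) (hl : 0 < lam) (Y : ℝ) :
    Real.arctan (lam / P) - Real.exp (-(P * Y)) * (lam * (lam + P) / P ^ 2) ≤
      ∫ y in (0 : ℝ)..Y, lam * Real.sinc (lam * y) * Real.exp (-(P * y)) := by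
  have e1 : ∫ y in (0 : ℝ)..Y, lam * Real.sinc (lam * y) * Real.exp (-(P * y)) =
      ∫ y in (0 : ℝ)..Y, ∫ μ in (0 : ℝ)..lam, Real.cos (μ * y) * Real.exp (-(P * y)) := by
    apply intervalIntegral.integral_congr
    intro y _
    simp only
    rw [intervalIntegral.integral_mul_const, sinc_int]
  have e2 : ∫ y in (0 : ℝ)..Y, ∫ μ in (0 : ℝ)..lam, Real.cos (μ * y) * Real.exp (-(P * y)) =
      ∫ μ in (0 : ℝ)..lam, ∫ y in (0 : ℝ)..Y, Real.cos (μ * y) * Real.exp (-(P * y)) := by
    apply intervalIntegral_intervalIntegral_swap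
    have hc : Continuous (Function.uncurry fun y μ : ℝ => Real.cos (μ * y) * Real.exp (-(P * y))) := by
      fun_prop
    have hK : IsCompact (Set.uIcc (0 : ℝ) Y ×ˢ Set.uIcc (0 : ℝ) lam) :=
      isCompact_uIcc.prod isCompact_uIcc
    exact (hc.continuousOn.integrableOn_compact hK).mono_set
      (Set.prod_mono uIoc_subset_uIcc uIoc_subset_uIcc)
  rw [e1, e2, ← arctan_int hP lam]
  have e3 : ∫ μ in (0 : ℝ)..lam, Real.exp (-(P * Y)) * ((lam + P) / P ^ 2) =
      Real.exp (-(P * Y)) * (lam * (lam + P) / P ^ 2) := by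
    rw [intervalIntegral.integral_const, sub_zero, smul_eq_mul]
    ring
  have hi1 : IntervalIntegrable (fun μ : ℝ => P / (P ^ 2 + μ ^ 2)) volume 0 lam := by
    apply Continuous.intervalIntegrable
    apply Continuous.div continuous_const (by fun_prop)
    intro x
    positivity
  rw [← e3, ← intervalIntegral.integral_sub hi1 intervalIntegrable_const]
  apply intervalIntegral.integral_mono_on hl.le
  · exact hi1.sub intervalIntegrable_const
  · apply Continuous.intervalIntegrable
    simp_rw [expcos hP]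
    apply Continuous.div (by fun_prop) (by fun_prop)
    intro x
    positivity
  · intro μ hμ
    rw [expcos hP]
    have hD : 0 < P ^ 2 + μ ^ 2 := by positivity
    have hE := Real.exp_pos (-(P * Y))
    have h1 : -(lam + P) ≤ μ * Real.sin (μ * Y) - P * Real.cos (μ * Y) := by
      have s1 := Real.neg_one_le_sin (μ * Y)
      have s2 := Real.cos_le_one (μ * Y)
      have s3 : μ * (-1) ≤ μ * Real.sin (μ * Y) := mul_le_mul_of_nonneg_left s1 hμ.1
      have s4 : P * Real.cos (μ * Y) ≤ P * 1 := mul_le_mul_of_nonneg_left s2 hP.le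
      linarith [hμ.2]
    have h2 : (P + Real.exp (-(P * Y)) * (μ * Real.sin (μ * Y) - P * Real.cos (μ * Y))) /
        (P ^ 2 + μ ^ 2) = P / (P ^ 2 + μ ^ 2) + Real.exp (-(P * Y)) *
          ((μ * Real.sin (μ * Y) - P * Real.cos (μ * Y)) / (P ^ 2 + μ ^ 2)) := by
      field_simp
    rw [h2]
    have h3 : -((lam + P) / P ^ 2) ≤
        (μ * Real.sin (μ * Y) - P * Real.cos (μ * Y)) / (P ^ 2 + μ ^ 2) := by
      have h4 : -(lam + P) / (P ^ 2 + μ ^ 2) ≤
          (μ * Real.sin (μ * Y) - P * Real.cos (μ * Y)) / (P ^ 2 + μ ^ 2) :=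
        div_le_div_of_nonneg_right h1 hD.le
      have h5 : (lam + P) / (P ^ 2 + μ ^ 2) ≤ (lam + P) / P ^ 2 := by
        apply div_le_div_of_nonneg_left (by positivity) (by positivity)
        nlinarith [sq_nonneg μ]
      rw [neg_div] at h4
      linarith
    have h6 := mul_le_mul_of_nonneg_left h3 hE.le
    linarith

/-- `sinc` is antitone on `(0, π]` -/
theorem sinc_anti {x y : ℝ} (hx : 0 < x) (hxy : x ≤ y) (hy : y ≤ Real.pi) :
    Real.sinc y ≤ Real.sinc x := by
  have hy0 : 0 < y := lt_of_lt_of_le hx hxy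
  rw [Real.sinc_of_ne_zero hx.ne', Real.sinc_of_ne_zero hy0.ne', div_le_div_iff₀ hy0 hx]
  have h := strictConcaveOn_sin_Icc.concaveOn.2
    (show (0 : ℝ) ∈ Icc 0 Real.pi from ⟨le_rfl, Real.pi_pos.le⟩)
    (show y ∈ Icc 0 Real.pi from ⟨hy0.le, hy⟩)
    (show 0 ≤ 1 - x / y by rw [sub_nonneg, div_le_one hy0]; exact hxy)
    (show 0 ≤ x / y by positivity) (by ring)
  simp only [smul_eq_mul, mul_zero, Real.sin_zero, zero_add] at h
  rw [div_mul_cancel₀ _ hy0.ne'] at h
  rw [div_mul_eq_mul_div, div_le_iff₀ hy0] at h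
  linarith

theorem sinc_top {z0 z : ℝ} (h0 : 0 < z0) (h1 : z0 ≤ 13 / 5) (hz : z0 ≤ z) :
    Real.sinc z ≤ Real.sinc z0 := by
  have hpi := Real.pi_gt_d2
  have hpi2 := Real.pi_lt_d2
  have hz0 : 0 < z := lt_of_lt_of_le h0 hz
  have hlow : 1 / (2 * Real.pi) ≤ Real.sinc z0 := by
    have h2 : Real.sinc (13 / 5) ≤ Real.sinc z0 := sinc_anti h0 h1 (by linarith)
    refine le_trans ?_ h2
    rw [Real.sinc_of_ne_zero (by norm_num)]
    have h3 : Real.sin (13 / 5) = Real.sin (Real.pi - 13 / 5) := (Real.sin_pi_sub _).symm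
    have h4 : (27 / 50 : ℝ) ≤ Real.pi - 13 / 5 := by linarith
    have h5 : Real.sin (27 / 50) ≤ Real.sin (Real.pi - 13 / 5) := by
      apply Real.sin_le_sin_of_le_of_le_pi_div_two (by linarith) (by linarith) h4
    have h6 : (27 / 50 : ℝ) - (27 / 50) ^ 3 / 6 < Real.sin (27 / 50) :=
      Real.sin_gt_sub_cube (by norm_num)
    rw [h3, div_le_div_iff₀ (by positivity) (by norm_num)]
    nlinarith
  rcases le_total z Real.pi with h2 | h2
  · exact sinc_anti h0 hz h2
  · rcases le_total z (2 * Real.pi) with h3 | h3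
    · have h4 : Real.sinc z ≤ 0 := by
        rw [Real.sinc_of_ne_zero hz0.ne']
        apply div_nonpos_of_nonpos_of_nonneg _ hz0.le
        have : Real.sin z = -Real.sin (z - Real.pi) := by
          rw [Real.sin_sub_pi, neg_neg]
        rw [this]
        have := Real.sin_nonneg_of_nonneg_of_le_pi (x := z - Real.pi) (by linarith) (by linarith)
        linarith
      have : 0 ≤ 1 / (2 * Real.pi) := by positivity
      linarith
    · have h4 := Real.sinc_le_inv_abs hz0.ne'
      rw [abs_of_pos hz0] at h4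
      refine h4.trans (le_trans ?_ hlow)
      rw [one_div]
      exact inv_anti₀ (by positivity) h3

theorem log_K {t y : ℝ} (ht0 : 0 ≤ t) (ht1 : t ≤ 1) (hy : y < 1) :
    t * Real.log (1 - y) ≤ Real.log (1 - t * y) := by
  have h := strictConcaveOn_log_Ioi.concaveOn.2
    (show 1 - y ∈ Ioi (0 : ℝ) by rw [Set.mem_Ioi]; linarith)
    (show (1 : ℝ) ∈ Ioi (0 : ℝ) by rw [Set.mem_Ioi]; norm_num) ht0
    (show 0 ≤ 1 - t by linarith) (by ring)
  simp only [smul_eq_mul, Real.log_one, mul_zero, add_zero] at h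
  rw [show t * (1 - y) + (1 - t) * 1 = 1 - t * y by ring] at h
  exact h

theorem log_artanh {t : ℝ} (ht0 : 0 < t) (ht1 : t < 1) :
    Real.log (1 - t) ≤ -(2 * t / (2 - t)) := by
  set x : ℝ := t / (2 - t) with hx
  have h2 : 0 < 2 - t := by linarith
  have hx0 : 0 < x := div_pos ht0 h2
  have hx1 : x < 1 := by rw [hx, div_lt_one h2]; linarith
  have h := Real.hasSum_log_sub_log_of_abs_lt_one (x := x) (by rw [abs_of_pos hx0]; exact hx1)
  have h3 := h.summable.sum_le_tsum (Finset.range 1) (fun i _ => by positivity)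
  rw [h.tsum_eq, Finset.sum_range_one] at h3
  simp only [Nat.cast_zero, mul_zero, zero_add, div_one, mul_one, pow_one] at h3
  have e1 : 1 + x = 2 / (2 - t) := by rw [hx]; field_simp; ring
  have e2 : 1 - x = 2 * (1 - t) / (2 - t) := by rw [hx]; field_simp; ring
  have h4 : Real.log (1 + x) - Real.log (1 - x) = -Real.log (1 - t) := by
    rw [e1, e2, Real.log_div (by norm_num) h2.ne', Real.log_div (by
      have : 0 < 1 - t := by linarith
      positivity) h2.ne', Real.log_mul (by norm_num) (by linarith)]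
    ring
  rw [h4, hx] at h3
  have : 2 * (t / (2 - t)) = 2 * t / (2 - t) := by ring
  linarith

/-- the crossing point of `(1-y)^a` and `e^{-(a+1)y}` -/
theorem crossing {a : ℝ} (ha : 1 < a) : ∃ y0 : ℝ, 0 < y0 ∧ y0 ≤ 2 / (a + 1) ∧ y0 < 1 ∧
    (∀ y : ℝ, 0 ≤ y → y ≤ y0 → Real.exp (-((a + 1) * y)) ≤ (1 - y) ^ a) ∧
    (∀ y : ℝ, y0 ≤ y → y < 1 → (1 - y) ^ a ≤ Real.exp (-((a + 1) * y))) := by
  have hP : 0 < a + 1 := by linarith
  set f : ℝ → ℝ := fun y => a * Real.log (1 - y) + (a + 1) * y with hf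
  have hy2 : 2 / (a + 1) < 1 := by rw [div_lt_one hP]; linarith
  have hy1 : 0 < 1 / (2 * (a + 1)) := by positivity
  have hy12 : 1 / (2 * (a + 1)) ≤ 2 / (a + 1) := by
    rw [div_le_div_iff₀ (by positivity) hP]; nlinarith
  have hfc : ContinuousOn f (Icc (1 / (2 * (a + 1))) (2 / (a + 1))) := by
    apply ContinuousOn.add
    · apply ContinuousOn.mul continuousOn_const
      apply ContinuousOn.log (by fun_prop)
      intro x hx
      have := hx.2
      linarith
    · fun_prop
  have hf1 : 0 ≤ f (1 / (2 * (a + 1))) := by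
    simp only [hf]
    set y := 1 / (2 * (a + 1)) with hy
    have hyy : (a + 1) * y = 1 / 2 := by rw [hy]; field_simp
    have hylt : y < 1 := lt_of_le_of_lt hy12 hy2
    have h1 : 1 - (1 - y)⁻¹ ≤ Real.log (1 - y) := Real.one_sub_inv_le_log_of_pos (by linarith)
    have h2 : (1 - y)⁻¹ ≤ (a + 1) / a * 1 := by
      rw [mul_one, inv_le_comm₀ (by linarith) (by positivity), inv_div]
      rw [div_le_iff₀ hP]
      nlinarith
    have h3 : a * (1 - (a + 1) / a * 1) ≤ a * Real.log (1 - y) :=
      mul_le_mul_of_nonneg_left (by linarith) (by linarith)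
    have h4 : (1 - y)⁻¹ ≤ 1 + 1 / (2 * a) := by
      have h5 : 0 < 1 - y := by linarith
      rw [inv_le_comm₀ h5 (by positivity)]
      have h6 : (1 + 1 / (2 * a))⁻¹ = 2 * a / (2 * a + 1) := by
        field_simp
      rw [h6, div_le_iff₀ (by positivity)]
      nlinarith
    have h7 : a * (1 - (1 + 1 / (2 * a))) ≤ a * Real.log (1 - y) :=
      mul_le_mul_of_nonneg_left (by linarith) (by linarith)
    have h8 : a * (1 - (1 + 1 / (2 * a))) = -(1 / 2) := by field_simp; ring
    linarith
  have hf2 : f (2 / (a + 1)) ≤ 0 := by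
    simp only [hf]
    have h1 := log_artanh (t := 2 / (a + 1)) (by positivity) hy2
    have h2 : 2 * (2 / (a + 1)) / (2 - 2 / (a + 1)) = 2 / a := by
      have : 2 - 2 / (a + 1) ≠ 0 := by linarith
      have ha0 : a ≠ 0 := by linarith
      have h3 : 2 - 2 / (a + 1) = 2 * a / (a + 1) := by
        field_simp
        ring
      rw [h3]
      field_simp
    rw [h2] at h1
    have h3 : a * Real.log (1 - 2 / (a + 1)) ≤ a * (-(2 / a)) :=
      mul_le_mul_of_nonneg_left h1 (by linarith)
    have h4 : a * (-(2 / a)) = -2 := by field_simp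
    have h5 : (a + 1) * (2 / (a + 1)) = 2 := by field_simp
    linarith
  obtain ⟨y0, hy0, hfy0⟩ := intermediate_value_Icc' hy12 hfc ⟨hf2, hf1⟩
  have hy0p : 0 < y0 := lt_of_lt_of_le hy1 hy0.1
  have hy0l : y0 < 1 := lt_of_le_of_lt hy0.2 hy2
  simp only [hf] at hfy0
  have key : ∀ y : ℝ, y < 1 → (1 - y) ^ a = Real.exp (a * Real.log (1 - y)) := by
    intro y hy
    rw [Real.rpow_def_of_pos (by linarith), mul_comm]
  refine ⟨y0, hy0p, hy0.2, hy0l, fun y h1 h2 => ?_, fun y h1 h2 => ?_⟩
  · rw [key y (by linarith)]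
    apply Real.exp_le_exp.2
    have h3 := log_K (t := y / y0) (y := y0) (by positivity) (by rw [div_le_one hy0p]; exact h2) hy0l
    rw [div_mul_cancel₀ _ hy0p.ne'] at h3
    have h4 : a * (y / y0 * Real.log (1 - y0)) ≤ a * Real.log (1 - y) :=
      mul_le_mul_of_nonneg_left h3 (by linarith)
    have h5 : a * (y / y0 * Real.log (1 - y0)) = -((a + 1) * y) := by
      have : a * Real.log (1 - y0) = -((a + 1) * y0) := by linarith
      calc a * (y / y0 * Real.log (1 - y0)) = y / y0 * (a * Real.log (1 - y0)) := by ring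
        _ = y / y0 * (-((a + 1) * y0)) := by rw [this]
        _ = _ := by field_simp
    linarith
  · rw [key y h2]
    apply Real.exp_le_exp.2
    have hyp : 0 < y := lt_of_lt_of_le hy0p h1
    have h3 := log_K (t := y0 / y) (y := y) (by positivity) (by rw [div_le_one hyp]; exact h1) h2
    rw [div_mul_cancel₀ _ hyp.ne'] at h3
    have h4 : a * (y0 / y * Real.log (1 - y)) ≤ a * Real.log (1 - y0) :=
      mul_le_mul_of_nonneg_left h3 (by linarith)
    have h5 : a * Real.log (1 - y0) = -((a + 1) * y0) := by linarith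
    rw [h5] at h4
    have h6 : y / y0 * (a * (y0 / y * Real.log (1 - y))) ≤ y / y0 * (-((a + 1) * y0)) :=
      mul_le_mul_of_nonneg_left h4 (by positivity)
    have h7 : y / y0 * (a * (y0 / y * Real.log (1 - y))) = a * Real.log (1 - y) := by field_simp
    have h8 : y / y0 * (-((a + 1) * y0)) = -((a + 1) * y) := by field_simp
    linarith

theorem int_one_sub {a : ℝ} (ha : 0 < a) : ∫ y in (0 : ℝ)..1, (1 - y) ^ a = 1 / (a + 1) := by
  have h := intervalIntegral.integral_comp_sub_left (a := 0) (b := 1) (fun y : ℝ => y ^ a) 1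
  rw [h, sub_self, sub_zero, integral_rpow (Or.inl (by linarith)), Real.one_rpow,
    Real.zero_rpow (by positivity), sub_zero]

theorem arc_bound {a lam : ℝ} (ha : 1 < a) (hl : 0 < lam) (hx : lam / (a + 1) ≤ 13 / 10) :
    Real.arctan (lam / (a + 1)) ≤ Gf a lam := by
  have hP : 0 < a + 1 := by linarith
  have ha0 : 0 < a := by linarith
  obtain ⟨y0, h0, h1, h2, h3, h4⟩ := crossing ha
  set φ : ℝ → ℝ := fun y => lam * Real.sinc (lam * y) with hφ
  set w : ℝ → ℝ := fun y => (max (1 - y) 0) ^ a with hw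
  set e : ℝ → ℝ := fun y => Real.exp (-((a + 1) * y)) with he
  have hφc : Continuous φ := by
    simp only [hφ]
    exact continuous_const.mul (Real.continuous_sinc.comp (continuous_const.mul continuous_id))
  have hwc : Continuous w := by
    simp only [hw]
    exact (Real.continuous_rpow_const ha0.le).comp ((continuous_const.sub continuous_id).max
      continuous_const)
  have hec : Continuous e := by simp only [he]; fun_prop
  have hz0 : lam * y0 ≤ 13 / 5 := by
    rw [div_le_iff₀ hP] at hx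
    calc lam * y0 ≤ lam * (2 / (a + 1)) := mul_le_mul_of_nonneg_left h1 hl.le
      _ = 2 * lam / (a + 1) := by ring
      _ ≤ 13 / 5 := by rw [div_le_iff₀ hP]; linarith
  have hz0p : 0 < lam * y0 := by positivity
  have hφ0 : 0 ≤ φ y0 := by
    simp only [hφ]
    apply mul_nonneg hl.le
    rw [Real.sinc_of_ne_zero hz0p.ne']
    apply div_nonneg _ hz0p.le
    apply Real.sin_nonneg_of_nonneg_of_le_pi hz0p.le
    have := Real.pi_gt_three
    linarith
  have hφle : ∀ y, 0 ≤ y → y ≤ y0 → φ y0 ≤ φ y := by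
    intro y hy hyy
    simp only [hφ]
    apply mul_le_mul_of_nonneg_left _ hl.le
    rcases hy.eq_or_lt with h | h
    · rw [← h, mul_zero, Real.sinc_zero]
      exact Real.sinc_le_one _
    · apply sinc_anti (by positivity) (mul_le_mul_of_nonneg_left hyy hl.le)
      have := Real.pi_gt_three
      linarith
  have hφge : ∀ y, y0 ≤ y → φ y ≤ φ y0 := by
    intro y hy
    simp only [hφ]
    apply mul_le_mul_of_nonneg_left _ hl.le
    exact sinc_top hz0p hz0 (mul_le_mul_of_nonneg_left hy hl.le)
  have hpt : ∀ y, 0 ≤ y → 0 ≤ (w y - e y) * (φ y - φ y0) := by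
    intro y hy
    rcases le_total y y0 with h | h
    · have e1 : w y = (1 - y) ^ a := by
        simp only [hw]
        rw [max_eq_left (by linarith)]
      have e2 := h3 y hy h
      have e3 := hφle y hy h
      rw [e1]
      apply mul_nonneg
      · simp only [he]; linarith
      · linarith
    · have e3 := hφge y h
      have e4 : w y ≤ e y := by
        rcases lt_or_ge y 1 with h5 | h5
        · have e1 : w y = (1 - y) ^ a := by
            simp only [hw]
            rw [max_eq_left (by linarith)]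
          rw [e1]
          exact h4 y h h5
        · have e1 : w y = 0 := by
            simp only [hw]
            rw [max_eq_right (by linarith), Real.zero_rpow ha0.ne']
          rw [e1]
          exact (Real.exp_pos _).le
      apply mul_nonneg_of_nonpos_of_nonpos <;> linarith
  have hmain : ∀ Y : ℝ, 1 ≤ Y → ∫ y in (0 : ℝ)..Y, φ y * e y ≤ Gf a lam := by
    intro Y hY
    have hwφ : ∀ u v : ℝ, IntervalIntegrable (fun y => w y * φ y) volume u v :=
      fun u v => (hwc.mul hφc).intervalIntegrable _ _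
    have hφe : ∀ u v : ℝ, IntervalIntegrable (fun y => φ y * e y) volume u v :=
      fun u v => (hφc.mul hec).intervalIntegrable _ _
    have hwe : ∀ u v : ℝ, IntervalIntegrable (fun y => w y - e y) volume u v :=
      fun u v => (hwc.sub hec).intervalIntegrable _ _
    have i1 : ∫ y in (0 : ℝ)..Y, w y * φ y = Gf a lam := by
      rw [← intervalIntegral.integral_add_adjacent_intervals (hwφ 0 1) (hwφ 1 Y)]
      have j1 : ∫ y in (1 : ℝ)..Y, w y * φ y = 0 := by
        rw [intervalIntegral.integral_congr (g := fun _ => (0 : ℝ))]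
        · simp
        · intro y hy
          rw [uIcc_of_le hY] at hy
          simp only [hw]
          rw [max_eq_right (by linarith [hy.1]), Real.zero_rpow ha0.ne', zero_mul]
      rw [j1, add_zero]
      unfold Gf
      apply intervalIntegral.integral_congr
      intro y hy
      rw [uIcc_of_le zero_le_one] at hy
      simp only [hw, hφ]
      rw [max_eq_left (by linarith [hy.2])]
      ring
    have i2 : ∫ y in (0 : ℝ)..Y, w y = 1 / (a + 1) := by
      rw [← intervalIntegral.integral_add_adjacent_intervals (a := 0) (b := 1) (c := Y)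
        (hwc.intervalIntegrable _ _) (hwc.intervalIntegrable _ _)]
      have j1 : ∫ y in (1 : ℝ)..Y, w y = 0 := by
        rw [intervalIntegral.integral_congr (g := fun _ => (0 : ℝ))]
        · simp
        · intro y hy
          rw [uIcc_of_le hY] at hy
          simp only [hw]
          rw [max_eq_right (by linarith [hy.1]), Real.zero_rpow ha0.ne']
      rw [j1, add_zero, ← int_one_sub ha0]
      apply intervalIntegral.integral_congr
      intro y hy
      rw [uIcc_of_le zero_le_one] at hy
      simp only [hw]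
      rw [max_eq_left (by linarith [hy.2])]
    have i3 : ∫ y in (0 : ℝ)..Y, e y ≤ 1 / (a + 1) := by
      have h5 := expcos hP 0 Y
      simp only [zero_mul, Real.cos_zero, one_mul, Real.sin_zero] at h5
      simp only [he]
      rw [h5]
      have hE := Real.exp_pos (-((a + 1) * Y))
      rw [div_le_div_iff₀ (by positivity) hP]
      nlinarith
    have i4 : 0 ≤ ∫ y in (0 : ℝ)..Y, (w y - e y) * (φ y - φ y0) := by
      apply intervalIntegral.integral_nonneg (by linarith)
      intro y hy
      exact hpt y hy.1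
    have i5 : ∫ y in (0 : ℝ)..Y, (w y - e y) * (φ y - φ y0) =
        (∫ y in (0 : ℝ)..Y, w y * φ y) - (∫ y in (0 : ℝ)..Y, φ y * e y) -
          φ y0 * ((∫ y in (0 : ℝ)..Y, w y) - ∫ y in (0 : ℝ)..Y, e y) := by
      rw [← intervalIntegral.integral_sub (hwc.intervalIntegrable _ _) (hec.intervalIntegrable _ _),
        ← intervalIntegral.integral_const_mul,
        ← intervalIntegral.integral_sub (hwφ 0 Y) (hφe 0 Y),
        ← intervalIntegral.integral_sub ((hwφ 0 Y).sub (hφe 0 Y)) ((hwe 0 Y).const_mul _)]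
      apply intervalIntegral.integral_congr
      intro y _
      simp only
      ring
    rw [i5, i1, i2] at i4
    have i6 : 0 ≤ φ y0 * (1 / (a + 1) - ∫ y in (0 : ℝ)..Y, e y) :=
      mul_nonneg hφ0 (by linarith)
    linarith
  have hlim : Tendsto (fun Y : ℝ => Real.arctan (lam / (a + 1)) -
      Real.exp (-((a + 1) * Y)) * (lam * (lam + (a + 1)) / (a + 1) ^ 2)) atTop
      (𝓝 (Real.arctan (lam / (a + 1)) - 0 * (lam * (lam + (a + 1)) / (a + 1) ^ 2))) := by
    apply Tendsto.const_sub
    apply Tendsto.mul_const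
    have : Tendsto (fun Y : ℝ => (a + 1) * Y) atTop atTop := Tendsto.const_mul_atTop hP tendsto_id
    exact Real.tendsto_exp_neg_atTop_nhds_zero.comp this
  rw [zero_mul, sub_zero] at hlim
  refine le_of_tendsto hlim ?_
  filter_upwards [eventually_ge_atTop 1] with Y hY
  exact (EY_lower hP hl Y).trans (hmain Y hY)

end RGP
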