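import Pool.Agent.TH861.RGP.Num

/-! # r-gaps: explicit constants, uniformly in the length -/

open Filter Topology Set MeasureTheory

namespace RGP

open RGap (PosLarge PosSmall PosT)

theorem arctan_lb {y : ℝ} (hy : 0 < y) : y / (1 + y ^ 2) ≤ Real.arctan y := by
  have h0 := arctan_int (P := 1) one_pos y
  rw [div_one] at h0
  rw [← h0]
  have h1 : ∫ _μ in (0 : ℝ)..y, 1 / (1 + y ^ 2) = y / (1 + y ^ 2) := by
    rw [intervalIntegral.integral_const, sub_zero, smul_eq_mul]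
    ring
  rw [← h1]
  apply intervalIntegral.integral_mono_on hy.le
  · exact intervalIntegrable_const
  · apply Continuous.intervalIntegrable
    apply Continuous.div continuous_const (by fun_prop)
    intro x
    positivity
  · intro μ hμ
    have h2 : μ ^ 2 ≤ y ^ 2 := pow_le_pow_left₀ hμ.1 hμ.2 2
    have h3 : (0 : ℝ) < 1 ^ 2 + μ ^ 2 := by positivity
    apply one_div_le_one_div_of_le h3
    linarith

theorem arctan_ub {y : ℝ} (hy : 0 < y) : Real.arctan y ≤ y := by
  have h0 := arctan_int (P := 1) one_pos y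
  rw [div_one] at h0
  rw [← h0]
  have h1 : ∫ _μ in (0 : ℝ)..y, (1 : ℝ) = y := by
    rw [intervalIntegral.integral_const, sub_zero, smul_eq_mul]
    ring
  conv_rhs => rw [← h1]
  apply intervalIntegral.integral_mono_on hy.le
  · apply Continuous.intervalIntegrable
    apply Continuous.div continuous_const (by fun_prop)
    intro x
    positivity
  · exact intervalIntegrable_const
  · intro μ _
    rw [div_le_one (by positivity)]
    nlinarith [sq_nonneg μ]

theorem arctan_13 : 9136 / 10000 ≤ Real.arctan (13 / 10) := by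
  have h := Real.arctan_add (x := 1) (y := 3 / 23) (by norm_num)
  have h1 : ((1 : ℝ) + 3 / 23) / (1 - 1 * (3 / 23)) = 13 / 10 := by norm_num
  rw [h1, Real.arctan_one] at h
  rw [← h]
  have h2 := arctan_lb (y := 3 / 23) (by norm_num)
  have h3 := Real.pi_gt_d4
  norm_num at h2 h3 ⊢
  linarith

theorem arctan_08 : 674 / 1000 ≤ Real.arctan (4 / 5) := by
  have h := Real.arctan_add (x := 4 / 5) (y := 1 / 9) (by norm_num)
  have h1 : ((4 / 5 : ℝ) + 1 / 9) / (1 - (4 / 5) * (1 / 9)) = 1 := by norm_num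
  rw [h1, Real.arctan_one] at h
  have h2 := arctan_ub (y := 1 / 9) (by norm_num)
  have h3 := Real.pi_gt_d4
  norm_num at h3
  linarith

theorem final_step {ν n0 N D R : ℝ} (hν : n0 ≤ ν) (hn : 0 ≤ n0) (hN : 0 < N) (hD : 0 < D) (hR : 0 ≤ R)
    (h : 0 < 16 * n0 * N ^ 2 - (3.1416 * R) ^ 2 * D ^ 2) :
    R < 4 * Real.sqrt ν / Real.pi * (N / D) := by
  have hpi := Real.pi_pos
  have hpi4 := Real.pi_lt_d4
  have h1 : 3.1416 * R * D < 4 * Real.sqrt ν * N := by
    apply lt_of_pow_lt_pow_left₀ 2 (by positivity)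
    have h2 : (4 * Real.sqrt ν * N) ^ 2 = 16 * ν * N ^ 2 := by
      rw [mul_pow, mul_pow, Real.sq_sqrt (hn.trans hν)]
      norm_num
    rw [h2]
    have h3 : 16 * n0 * N ^ 2 ≤ 16 * ν * N ^ 2 := by
      apply mul_le_mul_of_nonneg_right _ (by positivity)
      linarith
    nlinarith
  have h2 : Real.pi * R * D ≤ 3.1416 * R * D := by
    apply mul_le_mul_of_nonneg_right _ hD.le
    apply mul_le_mul_of_nonneg_right hpi4.le hR
  rw [div_mul_div_comm, lt_div_iff₀ (by positivity)]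
  linarith

theorem LF_lower' {ν b lam x c0 c1 A N D : ℝ} (hν : 1 ≤ ν) (hb : 0 < b) (hl : 0 < lam)
    (ha : 3 < b + ν) (hxe : 2 * lam / (b + ν + 1) = x) (hx : x ≤ 13 / 10)
    (h : ∀ t : ℝ, 0 ≤ t → t ≤ 1 → 1 ≤ (1 + x ^ 2 * t ^ 2) * (c0 - c1 * t))
    (hA : A ≤ Real.arctan x) (hD : D = (b + 2) * (b + 3))
    (hN : N = A * D - x * (c0 * (b + 3) - c1 * (b + 2))) :
    4 * Real.sqrt ν / Real.pi * (N / D) ≤ LF ν b lam := by
  have h1 := LF_lower (c0 := c0) (c1 := c1) hν hb hl ha (by rw [hxe]; exact hx) (by rw [hxe]; exact h)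
  rw [hxe] at h1
  refine le_trans ?_ h1
  apply mul_le_mul_of_nonneg_left _ (by positivity)
  have e : N / D = A - x * (c0 / (b + 2) - c1 / (b + 3)) := by
    rw [hN, hD]
    field_simp
  rw [e]
  linarith

/-- large sums, uniformly -/
theorem large_num {S : ℝ} (hS : 1 ≤ S) :
    ∃ ν b : ℝ, 1 ≤ ν ∧ 0 < b ∧
      9 / 5 * S < LF ν b (Real.pi * (S ^ 2 + 9 / 5 * S) / 2) := by
  obtain ⟨t, ht0, rfl⟩ : ∃ t : ℝ, 0 ≤ t ∧ S = 1 + t := ⟨S - 1, by linarith, by ring⟩
  set S : ℝ := 1 + t with hSd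
  have hS0 : 0 < S := by linarith
  have hpi := Real.pi_gt_d4
  norm_num at hpi
  set c : ℝ := S ^ 2 + 9 / 5 * S with hc
  have hc0 : 0 < c := by positivity
  have hS2 : S ≤ S ^ 2 := by nlinarith
  set n0 : ℝ := -1 + (27497 / 10000) * S + (4833 / 2000) * S ^ 2 with hn0
  have hν : n0 ≤ (10 / 13) * Real.pi * c - 1 - 8 / 5 * S := by
    have h1 : (10 / 13) * 3.1415 * c ≤ (10 / 13) * Real.pi * c := by
      apply mul_le_mul_of_nonneg_right _ hc0.le
      norm_num
      linarith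
    have h2 : n0 ≤ (10 / 13) * 3.1415 * c - 1 - 8 / 5 * S := by
      rw [hn0, hc]
      nlinarith
    linarith
  have hn1 : 1 ≤ n0 := by
    rw [hn0]; nlinarith
  refine ⟨(10 / 13) * Real.pi * c - 1 - 8 / 5 * S, 8 / 5 * S, hn1.trans hν, by positivity, ?_⟩
  have hpc : 0 < Real.pi * c := by positivity
  have hpc2 : 1 + 9 / 5 ≤ c := by
    rw [hc]; nlinarith
  have hpc3 : 3.1415 * (1 + 9 / 5) ≤ Real.pi * c := by
    apply mul_le_mul _ hpc2 (by positivity) (by positivity)
    norm_num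
    linarith
  refine lt_of_lt_of_le ?_ (LF_lower' (x := 13 / 10) (c0 := 109 / 100) (c1 := 718 / 1000)
    (A := 9136 / 10000) (N := (15487 / 5000) + (20422 / 3125) * S + (36544 / 15625) * S ^ 2)
    (D := 6 + 8 * S + (64 / 25) * S ^ 2) (hn1.trans hν) (by positivity)
    (by positivity) (by norm_num at hpc3; linarith) ?_ (by norm_num) ?_ arctan_13 ?_ ?_)
  · apply final_step hν (by linarith) (by positivity) (by positivity) (by positivity)
    have e : 16 * n0 * ((15487 / 5000) + (20422 / 3125) * S + (36544 / 15625) * S ^ 2) ^ 2 -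
        (3.1416 * (9 / 5 * S)) ^ 2 * (6 + 8 * S + (64 / 25) * S ^ 2) ^ 2 =
        (3826385066297519 / 4882812500000 : ℝ) + (7515907498092807 / 1953125000000 : ℝ) * t + (10642252324115729 / 1953125000000 : ℝ) * t ^ 2 + (210444183018369 / 61035156250 : ℝ) * t ^ 3 + (31508270500804 / 30517578125 : ℝ) * t ^ 4 + (18967511109632 / 152587890625 : ℝ) * t ^ 5 + (58763639808 / 30517578125 : ℝ) * t ^ 6 := by
      rw [hn0, hSd]
      norm_num
      ring
    rw [e]
    positivity
  · rw [show 2 * (Real.pi * c / 2) / (8 / 5 * S + (10 / 13 * Real.pi * c - 1 - 8 / 5 * S) + 1) =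
      (Real.pi * c) / (10 / 13 * (Real.pi * c)) by congr 1 <;> ring]
    rw [div_eq_iff (by positivity)]
    ring
  · intro t ht0 ht1
    nlinarith [mul_nonneg ht0 (sub_nonneg.2 ht1), sq_nonneg (t - 1/2), sq_nonneg (t - 1),
      mul_nonneg ht0 (sq_nonneg (t - 1/2)), mul_nonneg ht0 (sq_nonneg (t - 1)), mul_nonneg (sub_nonneg.2 ht1) (sq_nonneg (t - 1/4))]
  · ring
  · ring

theorem small_num {S : ℝ} (hS : 1.414 ≤ S) :
    ∃ ν b : ℝ, 1 ≤ ν ∧ 0 < b ∧
      S - 103 / 200 < LF ν b (Real.pi * (S ^ 2 - S + 103 / 200) / 2) := by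
  obtain ⟨t, ht0, rfl⟩ : ∃ t : ℝ, 0 ≤ t ∧ S = 1.414 + t := ⟨S - 1.414, by linarith, by ring⟩
  set S : ℝ := 1.414 + t with hSd
  have hS0 : 0 < S := by linarith
  have hpi := Real.pi_gt_d4
  norm_num at hpi
  set c : ℝ := S ^ 2 - S + 103 / 200 with hc
  have hc0 : 0 < c := by nlinarith
  set n0 : ℝ := (162189 / 100000) + (-2463 / 500) * S + (1963 / 500) * S ^ 2 with hn0
  have hν : n0 ≤ (5 / 4) * Real.pi * c - 1 - (S - 3 / 5) := by
    have h1 : (5 / 4) * 3.1415 * c ≤ (5 / 4) * Real.pi * c := by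
      apply mul_le_mul_of_nonneg_right _ hc0.le
      norm_num
      linarith
    have h2 : n0 ≤ (5 / 4) * 3.1415 * c - 1 - (S - 3 / 5) := by
      rw [hn0, hc]
      nlinarith
    linarith
  have hn1 : 1 ≤ n0 := by
    rw [hn0]; nlinarith
  have hb0 : 0 < S - 3 / 5 := by norm_num at hS; linarith
  refine ⟨(5 / 4) * Real.pi * c - 1 - (S - 3 / 5), S - 3 / 5, hn1.trans hν, hb0, ?_⟩
  have hpc : 0 < Real.pi * c := by positivity
  have hpc2 : 1.1 ≤ c := by
    rw [hc]; norm_num at hS ⊢; nlinarith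
  have hpc3 : 3.1415 * 1.1 ≤ Real.pi * c := by
    apply mul_le_mul _ hpc2 (by norm_num) (by positivity)
    norm_num
    linarith
  refine lt_of_lt_of_le ?_ (LF_lower' (x := 4 / 5) (c0 := 9 / 8) (c1 := 103 / 200)
    (A := 674 / 1000) (N := (4259 / 6250) + (5183 / 2500) * S + (337 / 500) * S ^ 2)
    (D := (84 / 25) + (19 / 5) * S + S ^ 2) (hn1.trans hν) hb0
    (by positivity) (by norm_num at hpc3; linarith) ?_ (by norm_num) ?_ arctan_08 ?_ ?_)
  · apply final_step hν (by linarith) (by positivity) (by positivity) (by linarith)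
    have e : 16 * n0 * ((4259 / 6250) + (5183 / 2500) * S + (337 / 500) * S ^ 2) ^ 2 -
        (3.1416 * (S - 103 / 200)) ^ 2 * ((84 / 25) + (19 / 5) * S + S ^ 2) ^ 2 =
        (33144503690482458339472767 / 488281250000000000000000 : ℝ) + (102042810603892771867017 / 122070312500000000000 : ℝ) * t + (423273935673202530537 / 195312500000000000 : ℝ) * t ^ 2 + (439517105571048069 / 195312500000000 : ℝ) * t ^ 3 + (1678740245851451 / 1562500000000 : ℝ) * t ^ 4 + (911195381359 / 3906250000 : ℝ) * t ^ 5 + (72914651 / 3906250 : ℝ) * t ^ 6 := by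
      rw [hn0, hSd]
      norm_num
      ring
    rw [e]
    positivity
  · rw [show 2 * (Real.pi * c / 2) / (S - 3 / 5 + (5 / 4 * Real.pi * c - 1 - (S - 3 / 5)) + 1) =
      (Real.pi * c) / (5 / 4 * (Real.pi * c)) by congr 1 <;> ring]
    rw [div_eq_iff (by positivity)]
    ring
  · intro t ht0 ht1
    nlinarith [mul_nonneg ht0 (sub_nonneg.2 ht1), sq_nonneg (t - 1/2), sq_nonneg (t - 1),
      mul_nonneg ht0 (sq_nonneg (t - 1/2)), mul_nonneg ht0 (sq_nonneg (t - 1)), mul_nonneg (sub_nonneg.2 ht1) (sq_nonneg (t - 1/4))]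
  · ring
  · ring

theorem large_all (hRH : SP.RHs) {k : ℕ} (hk : 1 ≤ k) :
    PosLarge k (k + 9 / 5 * Real.sqrt k) := by
  have hk' : (1 : ℝ) ≤ k := by exact_mod_cast hk
  have hS : 1 ≤ Real.sqrt k := by
    rw [← Real.sqrt_one]
    exact Real.sqrt_le_sqrt hk'
  obtain ⟨ν, b, hν, hb, h⟩ := large_num hS
  rw [Real.sq_sqrt (by positivity)] at h
  exact (crit hRH hν hb (by positivity) hk).1 (by linarith)

theorem small_all (hRH : SP.RHs) {k : ℕ} (hk : 2 ≤ k) :
    PosSmall k (k - Real.sqrt k + 103 / 200) ∧ PosT k (k - Real.sqrt k + 103 / 200) := by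
  have hk' : (2 : ℝ) ≤ k := by exact_mod_cast hk
  have hS : 1.414 ≤ Real.sqrt k := by
    apply Real.le_sqrt_of_sq_le
    norm_num
    linarith
  obtain ⟨ν, b, hν, hb, h⟩ := small_num hS
  rw [Real.sq_sqrt (by positivity)] at h
  have hc : 0 < (k : ℝ) - Real.sqrt k + 103 / 200 := by
    have h1 : Real.sqrt k ≤ k := by
      rw [Real.sqrt_le_left (by positivity)]
      nlinarith
    linarith
  exact (crit hRH hν hb hc (by omega)).2 (by linarith)

end RGP
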