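import Pool.Agent.TH861.RGP.Lim
import Pool.Agent.H360R2.RG.Main

/-! # r-gaps: the criterion with the power resonators -/

open Complex Filter Topology Set MeasureTheory

namespace RGP

open LG (IsQ SF SM smid phi riem floor_div_lim floor_top smid_le smid_lim phi_cont)
open RGap (Ideal smI PosLarge PosSmall PosT)

theorem SF_eq {ν b : ℝ} (hν : 0 < ν) (hb : 0 < b) (B : ℕ) :
    SF B (Fp ν b) (qe ν) = ∑ n ∈ Finset.range (B + 1), (if 2 ≤ n then (n : ℝ) ^ b else 0) := by
  unfold SF
  apply Finset.sum_congr rfl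
  intro n _
  split_ifs with h
  · exact Fp_sq hν h
  · have : Fp ν b n = 0 := by
      have h2 : n < 2 := by omega
      interval_cases n
      · exact Fp_zero hb
      · exact Fp_one ν b
    rw [this]
    ring

theorem SF_pos {ν b : ℝ} (hν : 0 < ν) (hb : 0 < b) {B : ℕ} (hB : 2 ≤ B) :
    0 < SF B (Fp ν b) (qe ν) := by
  rw [SF_eq hν hb]
  have h1 : (0 : ℝ) < if 2 ≤ B then (B : ℝ) ^ b else 0 := by
    rw [if_pos hB]
    exact Real.rpow_pos_of_pos (by positivity) _
  refine lt_of_lt_of_le h1 ?_
  refine Finset.single_le_sum (f := fun n : ℕ => if 2 ≤ n then (n : ℝ) ^ b else 0) ?_ ?_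
  · intro n _
    split_ifs
    · exact Real.rpow_nonneg (Nat.cast_nonneg n) _
    · exact le_rfl
  · rw [Finset.mem_range]; omega

theorem SF_lim {ν b : ℝ} (hν : 0 < ν) (hb : 0 < b) :
    Tendsto (fun B : ℕ => SF B (Fp ν b) (qe ν) / (B : ℝ) ^ (b + 1)) atTop (𝓝 (1 / (b + 1))) := by
  have hred : ∀ B : ℕ, SF B (Fp ν b) (qe ν) / (B : ℝ) ^ (b + 1) =
      ∑ n ∈ Finset.range (B + 1), (if 2 ≤ n ∧ n ≤ B then (n : ℝ) ^ b / (B : ℝ) ^ (b + 1) else 0) := by
    intro B
    rw [SF_eq hν hb, Finset.sum_div]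
    apply Finset.sum_congr rfl
    intro n hn
    rw [Finset.mem_range] at hn
    by_cases h : 2 ≤ n
    · rw [if_pos h, if_pos ⟨h, by omega⟩]
    · rw [if_neg h, if_neg (fun h2 => h h2.1), zero_div]
  simp_rw [hred]
  have e0 : (1 / (b + 1) : ℝ) = ∫ x in (0 : ℝ)..2, (if x < 1 then x ^ b else 0) := by
    set f : ℝ → ℝ := fun v => v ^ b with hf
    have hfc : Continuous f := Real.continuous_rpow_const hb.le
    have h1 : EqOn f (fun v => if v < 1 then f v else 0) (Ioo 0 1) := by
      intro x hx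
      simp only
      rw [if_pos hx.2]
    have h2 : EqOn (fun _ : ℝ => (0 : ℝ)) (fun v => if v < 1 then f v else 0) (Ioo 1 2) := by
      intro x hx
      simp only
      rw [if_neg (by linarith [hx.1])]
    have i1 : IntervalIntegrable (fun v => if v < 1 then f v else 0) volume 0 1 := by
      rw [intervalIntegrable_iff_integrableOn_Ioo_of_le zero_le_one]
      refine IntegrableOn.congr_fun ?_ h1 measurableSet_Ioo
      rw [← intervalIntegrable_iff_integrableOn_Ioo_of_le zero_le_one]
      exact hfc.intervalIntegrable _ _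
    have i2 : IntervalIntegrable (fun v => if v < 1 then f v else 0) volume 1 2 := by
      rw [intervalIntegrable_iff_integrableOn_Ioo_of_le (by norm_num)]
      refine IntegrableOn.congr_fun ?_ h2 measurableSet_Ioo
      exact integrableOn_zero
    rw [← intervalIntegral.integral_add_adjacent_intervals i1 i2]
    have e1 : ∫ x in (0 : ℝ)..1, (if x < 1 then f x else 0) = ∫ x in (0 : ℝ)..1, f x := by
      rw [intervalIntegral.integral_of_le zero_le_one, integral_Ioc_eq_integral_Ioo,
          ← setIntegral_congr_fun measurableSet_Ioo h1, ← integral_Ioc_eq_integral_Ioo,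
          ← intervalIntegral.integral_of_le zero_le_one]
    have e2 : ∫ x in (1 : ℝ)..2, (if x < 1 then f x else 0) = 0 := by
      rw [intervalIntegral.integral_of_le (by norm_num), integral_Ioc_eq_integral_Ioo,
          ← setIntegral_congr_fun measurableSet_Ioo h2]
      simp
    rw [e1, e2, add_zero, hf, integral_rpow (Or.inl (by linarith))]
    rw [Real.one_rpow, Real.zero_rpow (by positivity), sub_zero]
  rw [e0]
  apply riem _ _ 1 {1} (Set.countable_singleton _)
  · intro B n
    split_ifs with h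
    · have hB : 0 < B := by omega
      have hB0 : (0 : ℝ) < B := by exact_mod_cast hB
      have e1 : (B : ℝ) * ((n : ℝ) ^ b / (B : ℝ) ^ (b + 1)) = (n : ℝ) ^ b / (B : ℝ) ^ b := by
        rw [Real.rpow_add_one hB0.ne']
        have := (Real.rpow_pos_of_pos hB0 b).ne'
        field_simp
      rw [e1, abs_of_nonneg (div_nonneg (Real.rpow_nonneg (Nat.cast_nonneg n) _)
        (Real.rpow_nonneg hB0.le _)), div_le_one (Real.rpow_pos_of_pos hB0 b)]
      apply Real.rpow_le_rpow (Nat.cast_nonneg n) _ hb.le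
      exact_mod_cast h.2
    · rw [mul_zero, abs_zero]; exact zero_le_one
  · intro B n hn
    rw [if_neg]
    rintro ⟨-, h⟩
    omega
  · intro x hx hx1
    have hx1' : x ≠ 1 := hx1
    have hm := floor_div_lim x hx.le
    rcases lt_or_gt_of_ne hx1' with h | h
    · rw [if_pos h]
      have h2 := (Real.continuousAt_rpow_const x b (Or.inl hx.ne')).tendsto.comp hm
      refine h2.congr' ?_
      have h4 : ∀ᶠ B : ℕ in atTop, ((⌊x * B⌋₊ : ℕ) : ℝ) / B < 1 := hm.eventually_lt_const h
      filter_upwards [h4, eventually_ge_atTop 1, (floor_top x hx).eventually_ge_atTop 2]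
        with B hB hB1 h5
      have hB0 : (0 : ℝ) < B := by exact_mod_cast hB1
      rw [div_lt_one hB0] at hB
      have h6 : ⌊x * (B : ℝ)⌋₊ < B := by exact_mod_cast hB
      rw [if_pos ⟨h5, h6.le⟩]
      simp only [Function.comp]
      rw [Real.div_rpow (Nat.cast_nonneg _) hB0.le, Real.rpow_add_one hB0.ne']
      have := (Real.rpow_pos_of_pos hB0 b).ne'
      field_simp
    · rw [if_neg (by linarith)]
      have h4 : ∀ᶠ B : ℕ in atTop, 1 < ((⌊x * B⌋₊ : ℕ) : ℝ) / B := hm.eventually_const_lt h
      apply tendsto_const_nhds.congr'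
      filter_upwards [h4, eventually_ge_atTop 1] with B hB hB1
      have hB0 : (0 : ℝ) < B := by exact_mod_cast hB1
      rw [one_lt_div hB0] at hB
      have : B < ⌊x * (B : ℝ)⌋₊ := by exact_mod_cast hB
      rw [if_neg, mul_zero]
      rintro ⟨-, h7⟩
      omega

theorem SM_sum {ν b c κ : ℝ} (hν : 0 < ν) {B : ℕ} (hB : 1 ≤ B) :
    (∑ m ∈ Finset.Icc 2 B, smid (κ / B) c m * SM B (Fp ν b) (qe ν) m) / (B : ℝ) ^ (b + 1) =
      ∑ N ∈ Finset.range (B + 1), JJ ν b c κ B N / B := by
  have hB0 : (0 : ℝ) < B := by exact_mod_cast hB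
  have hBb := (Real.rpow_pos_of_pos hB0 b).ne'
  have e1 : ∑ N ∈ Finset.range (B + 1), JJ ν b c κ B N =
      ∑ m ∈ Finset.range (B + 1), ∑ N ∈ Finset.range (B + 1), ci ν b c κ B N m := by
    unfold JJ
    rw [Finset.sum_comm]
  have e2 : ∀ m ∈ Finset.range (B + 1), ∑ N ∈ Finset.range (B + 1), ci ν b c κ B N m =
      if 2 ≤ m then smid (κ / B) c m * SM B (Fp ν b) (qe ν) m / (B : ℝ) ^ b else 0 := by
    intro m hm
    rw [Finset.mem_range] at hm
    split_ifs with h
    · unfold SM
      rw [Finset.mul_sum, Finset.sum_div]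
      have e3 : ∑ N ∈ Finset.range (B + 1), ci ν b c κ B N m =
          ∑ N ∈ Finset.Ico m (B + 1), ci ν b c κ B N m := by
        symm
        apply Finset.sum_subset
        · intro N hN
          rw [Finset.mem_Ico] at hN
          rw [Finset.mem_range]
          exact hN.2
        · intro N _ hN2
          rw [Finset.mem_Ico] at hN2
          unfold ci
          rw [if_neg]
          rintro ⟨-, h2, h3⟩
          exact hN2 ⟨h2, by omega⟩
      rw [e3, Finset.sum_Ico_eq_sum_range]
      apply Finset.sum_congr rfl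
      intro n hn
      rw [Finset.mem_range] at hn
      unfold ci
      rw [if_pos ⟨h, by omega, by omega⟩, show m + n - m = n by omega, add_comm m n,
        ← Fp_mul hν n]
      ring
    · apply Finset.sum_eq_zero
      intro N _
      unfold ci
      rw [if_neg (fun h2 => h h2.1)]
  rw [← Finset.sum_div, e1, Finset.sum_congr rfl e2, Real.rpow_add_one hB0.ne', ← div_div]
  congr 1
  rw [Finset.sum_div]
  have hsub : Finset.Icc 2 B ⊆ Finset.range (B + 1) := by
    intro m hm
    simp only [Finset.mem_Icc] at hm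
    simp only [Finset.mem_range]
    omega
  rw [← Finset.sum_subset hsub]
  · apply Finset.sum_congr rfl
    intro m hm
    rw [Finset.mem_Icc] at hm
    rw [if_pos hm.1]
  · intro m hm hm2
    rw [Finset.mem_range] at hm
    rw [Finset.mem_Icc] at hm2
    rw [if_neg (by omega)]

/-- the functional -/
noncomputable def LF (ν b lam : ℝ) : ℝ :=
  4 * Real.sqrt ν / Real.pi * ((b + 1) * ∫ s in (0 : ℝ)..1, s ^ b * Gf (aa ν b) (lam * s))

theorem Gf_cont {a : ℝ} (ha : 0 < a) : Continuous (Gf a) := by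
  unfold Gf
  apply intervalIntegral.continuous_parametric_intervalIntegral_of_continuous'
  have h2 : Continuous (fun y : ℝ => (1 - y) ^ a) :=
    (Real.continuous_rpow_const ha.le).comp (continuous_const.sub continuous_id)
  have h1 : Continuous (fun p : ℝ × ℝ => p.1 * Real.sinc (p.1 * p.2)) :=
    continuous_fst.mul (Real.continuous_sinc.comp (continuous_fst.mul continuous_snd))
  exact h1.mul (h2.comp continuous_snd)

theorem LF_cont {ν b : ℝ} (hν : 1 ≤ ν) (hb : 0 < b) : Continuous (LF ν b) := by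
  have ha : 0 < aa ν b := by unfold aa; linarith
  unfold LF
  apply Continuous.mul continuous_const
  apply Continuous.mul continuous_const
  apply intervalIntegral.continuous_parametric_intervalIntegral_of_continuous'
  have h1 : Continuous (fun s : ℝ => s ^ b) := Real.continuous_rpow_const hb.le
  exact (h1.comp continuous_snd).mul ((Gf_cont ha).comp (continuous_fst.mul continuous_snd))

theorem step_int {b : ℝ} (hb : 0 < b) {g : ℝ → ℝ} (hg : Continuous g) :
    ∫ s in (0 : ℝ)..2, (if s < 1 then s ^ b * g s else 0) = ∫ s in (0 : ℝ)..1, s ^ b * g s := by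
  set f : ℝ → ℝ := fun v => v ^ b * g v with hf
  have hfc : Continuous f := (Real.continuous_rpow_const hb.le).mul hg
  have h1 : EqOn f (fun v => if v < 1 then f v else 0) (Ioo 0 1) := by
    intro x hx
    simp only
    rw [if_pos hx.2]
  have h2 : EqOn (fun _ : ℝ => (0 : ℝ)) (fun v => if v < 1 then f v else 0) (Ioo 1 2) := by
    intro x hx
    simp only
    rw [if_neg (by linarith [hx.1])]
  have i1 : IntervalIntegrable (fun v => if v < 1 then f v else 0) volume 0 1 := by
    rw [intervalIntegrable_iff_integrableOn_Ioo_of_le zero_le_one]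
    refine IntegrableOn.congr_fun ?_ h1 measurableSet_Ioo
    rw [← intervalIntegrable_iff_integrableOn_Ioo_of_le zero_le_one]
    exact hfc.intervalIntegrable _ _
  have i2 : IntervalIntegrable (fun v => if v < 1 then f v else 0) volume 1 2 := by
    rw [intervalIntegrable_iff_integrableOn_Ioo_of_le (by norm_num)]
    refine IntegrableOn.congr_fun ?_ h2 measurableSet_Ioo
    exact integrableOn_zero
  rw [← intervalIntegral.integral_add_adjacent_intervals i1 i2]
  have e1 : ∫ x in (0 : ℝ)..1, (if x < 1 then f x else 0) = ∫ x in (0 : ℝ)..1, f x := by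
    rw [intervalIntegral.integral_of_le zero_le_one, integral_Ioc_eq_integral_Ioo,
        ← setIntegral_congr_fun measurableSet_Ioo h1, ← integral_Ioc_eq_integral_Ioo,
        ← intervalIntegral.integral_of_le zero_le_one]
  have e2 : ∫ x in (1 : ℝ)..2, (if x < 1 then f x else 0) = 0 := by
    rw [intervalIntegral.integral_of_le (by norm_num), integral_Ioc_eq_integral_Ioo,
        ← setIntegral_congr_fun measurableSet_Ioo h2]
    simp
  rw [e1, e2, add_zero]

theorem ideal_of {ν b c x : ℝ} (hν : 1 ≤ ν) (hb : 0 < b) (hc : 0 < c)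
    (hx : x < LF ν b (Real.pi * c / 2)) : ∃ (κ : ℝ) (B0 : ℕ), 0 < κ ∧ κ < 1 / 2 ∧ 1 ≤ B0 ∧
      Ideal κ B0 (Real.sqrt ν) (fun _ => 1) (Fp ν b) (fun _ => 1) x c := by
  have hν0 : 0 < ν := by linarith
  have ha : 0 < aa ν b := by unfold aa; linarith
  -- choice of `κ`
  have hcont : ContinuousAt (fun κ : ℝ => LF ν b (Real.pi * c * ((1 - κ) / 2))) 0 :=
    ((LF_cont hν hb).comp (continuous_const.mul
      ((continuous_const.sub continuous_id).div_const 2))).continuousAt
  have hx0 : x < LF ν b (Real.pi * c * ((1 - 0) / 2)) := by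
    rw [show Real.pi * c * ((1 - 0) / 2) = Real.pi * c / 2 by ring]
    exact hx
  have hev := hcont.eventually_const_lt hx0
  obtain ⟨δ, hδ, hδ2⟩ := Metric.eventually_nhds_iff.1 hev
  set κ : ℝ := min (δ / 2) (1 / 4) with hκd
  have hκ0 : 0 < κ := lt_min (by positivity) (by norm_num)
  have hκ1 : κ ≤ 1 / 4 := min_le_right _ _
  have hκx : x < LF ν b (Real.pi * c * ((1 - κ) / 2)) := by
    apply hδ2
    rw [Real.dist_eq, sub_zero, abs_of_pos hκ0]
    have : κ ≤ δ / 2 := min_le_left _ _
    linarith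
  set κ' : ℝ := (1 - κ) / 2 with hκ'
  have hκ'0 : 0 < κ' := by rw [hκ']; linarith
  have l1 := (SF_lim hν0 hb (ν := ν)).const_mul x
  have l2 := (outer_lim (c := c) (κ := κ') hν hb hc hκ'0).const_mul (4 * Real.sqrt ν / Real.pi)
  rw [step_int hb (g := fun s => Gf (aa ν b) (Real.pi * c * κ' * s))
    ((Gf_cont ha).comp (continuous_const.mul continuous_id))] at l2
  have hlt : x * (1 / (b + 1)) < 4 * Real.sqrt ν / Real.pi *
      ∫ s in (0 : ℝ)..1, s ^ b * Gf (aa ν b) (Real.pi * c * κ' * s) := by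
    unfold LF at hκx
    have hb1 : 0 < b + 1 := by linarith
    rw [mul_one_div, div_lt_iff₀ hb1]
    linarith
  have hev2 := l1.eventually_lt l2 hlt
  obtain ⟨B, hB, hB2⟩ := (hev2.and (eventually_ge_atTop 2)).exists
  refine ⟨κ, B, hκ0, by linarith, by omega, fun q hq => ?_⟩
  have hB0 : (0 : ℝ) < B := by
    have : 0 < B := by omega
    exact_mod_cast this
  have hq' : IsQ B (tn ν) q := by
    have : (fun m : ℕ => if 2 ≤ m then Real.sqrt ν ^ 2 * (1 : ℝ) ^ 2 else 0) = tn ν := by
      funext m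
      unfold tn
      rw [Real.sq_sqrt hν0.le, one_pow, mul_one]
    rwa [this] at hq
  have eSF : SF B (Fp ν b) q = SF B (Fp ν b) (qe ν) := by
    unfold SF
    apply Finset.sum_congr rfl
    intro n hn
    simp only [Finset.mem_range] at hn
    rw [q_eq hq' n (by omega)]
  have eSM : ∀ m, SM B (Fp ν b) q m = SM B (Fp ν b) (qe ν) m := by
    intro m
    unfold SM
    apply Finset.sum_congr rfl
    intro n hn
    simp only [Finset.mem_range] at hn
    rw [q_eq hq' n (by omega)]
  rw [eSF]
  refine ⟨SF_pos hν0 hb hB2, ?_⟩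
  have esum := SM_sum (b := b) (c := c) (κ := κ') hν0 (show 1 ≤ B by omega)
  rw [← esum] at hB
  have h5 : (0 : ℝ) < (B : ℝ) ^ (b + 1) := Real.rpow_pos_of_pos hB0 _
  rw [← mul_div_assoc, ← mul_div_assoc, div_lt_div_iff_of_pos_right h5] at hB
  refine hB.trans_le (le_of_eq ?_)
  congr 1
  apply Finset.sum_congr rfl
  intro m _
  rw [eSM, one_mul, one_mul]
  congr 1
  unfold smid smI
  rw [hκ', div_div]

/-- the criterion -/
theorem crit (hRH : SP.RHs) {ν b c : ℝ} (hν : 1 ≤ ν) (hb : 0 < b) (hc : 0 < c) {k : ℕ}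
    (hk : 1 ≤ k) :
    (c - k < LF ν b (Real.pi * c / 2) → PosLarge k c) ∧
    (k - c < LF ν b (Real.pi * c / 2) → PosSmall k c ∧ PosT k c) := by
  constructor
  · intro h
    obtain ⟨κ, B0, h1, h2, h3, h4⟩ := ideal_of hν hb hc h
    exact RGap.large_of_ideal RGap.LOCL_main RGap.POSL_proof RGap.PARG_proof hRH h1 h2 h3
      (Real.sqrt_pos.2 (by linarith)) (fun _ => ⟨zero_le_one, le_rfl⟩)
      (fun _ => Or.inl rfl) hk hc h4
  · intro h
    obtain ⟨κ, B0, h1, h2, h3, h4⟩ := ideal_of hν hb hc h
    exact RGap.small_of_ideal RGap.LOCS_main RGap.POSS_proof RGap.POST_proof RGap.PARG_proof hRH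
      h1 h2 h3 (Real.sqrt_pos.2 (by linarith)) (fun _ => ⟨zero_le_one, le_rfl⟩)
      (fun _ => Or.inl rfl) hk hc h4

end RGP
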