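import Pool.Agent.TH861.RGP.Q
import Pool.Agent.H520R2.LG.Ideal
import Pool.Agent.H360R2.RG.Defs

/-! # r-gaps: the limit `B0 → ∞` for the power resonators -/

open Complex Filter Topology Set MeasureTheory

namespace RGP

open LG (IsQ SF SM smid phi riem floor_div_lim floor_top smid_le smid_lim phi_cont)

/-- the resonator weights -/
noncomputable def Fp (ν b : ℝ) (n : ℕ) : ℝ := (n : ℝ) ^ (b / 2) / Real.sqrt (qe ν n)

noncomputable def up (ν b : ℝ) (n : ℕ) : ℝ := (n : ℝ) ^ (b / 2) * Real.sqrt (qe ν n)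

theorem Fp_zero {ν b : ℝ} (hb : 0 < b) : Fp ν b 0 = 0 := by
  unfold Fp
  rw [Nat.cast_zero, Real.zero_rpow (by positivity), zero_div]

theorem Fp_one (ν b : ℝ) : Fp ν b 1 = 0 := by
  unfold Fp
  rw [qe_one, Real.sqrt_zero, div_zero]

theorem Fp_nonneg (ν b : ℝ) (n : ℕ) : 0 ≤ Fp ν b n := by
  unfold Fp
  exact div_nonneg (Real.rpow_nonneg (Nat.cast_nonneg n) _) (Real.sqrt_nonneg _)

theorem up_nonneg (ν b : ℝ) (n : ℕ) : 0 ≤ up ν b n := by
  unfold up
  exact mul_nonneg (Real.rpow_nonneg (Nat.cast_nonneg n) _) (Real.sqrt_nonneg _)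

theorem Fp_mul {ν b : ℝ} (hν : 0 < ν) (n : ℕ) : Fp ν b n * qe ν n = up ν b n := by
  unfold Fp up
  have h := qe_nonneg hν n
  rcases h.eq_or_lt with h0 | h0
  · rw [← h0]; simp
  · have h1 := Real.mul_self_sqrt h
    have h2 : Real.sqrt (qe ν n) ≠ 0 := (Real.sqrt_pos.2 h0).ne'
    rw [div_mul_eq_mul_div, div_eq_iff h2, mul_assoc, h1]

theorem qe_pos' {ν : ℝ} (hν : 0 < ν) {n : ℕ} (hn : 2 ≤ n) : 0 < qe ν n := by
  have := qe_pos hν (n - 2)
  rwa [show n - 2 + 2 = n by omega] at this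

theorem Fp_sq {ν b : ℝ} (hν : 0 < ν) {n : ℕ} (hn : 2 ≤ n) :
    Fp ν b n ^ 2 * qe ν n = (n : ℝ) ^ b := by
  have h := qe_pos' hν hn
  unfold Fp
  rw [div_pow, Real.sq_sqrt h.le, div_mul_cancel₀ _ h.ne', ← Real.rpow_natCast,
    ← Real.rpow_mul (Nat.cast_nonneg n)]
  congr 1
  push_cast
  ring

theorem FU_bd {ν b : ℝ} (hν : 1 ≤ ν) (hb : 0 < b) : ∃ K : ℝ, 0 < K ∧ ∀ M N B : ℕ, M ≤ N → N ≤ B →
    Fp ν b N * up ν b M ≤ K * (B : ℝ) ^ b := by
  have hν0 : 0 < ν := by linarith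
  obtain ⟨K, hK1, h1, h2⟩ := qe_two hν
  have hK0 : 0 < K := by linarith
  refine ⟨K, hK0, fun M N B hMN hNB => ?_⟩
  have hB0 : (0 : ℝ) ≤ (B : ℝ) ^ b := Real.rpow_nonneg (Nat.cast_nonneg B) _
  rcases Nat.lt_or_ge N 2 with hN | hN
  · have : Fp ν b N = 0 := by
      interval_cases N
      · exact Fp_zero hb
      · exact Fp_one ν b
    rw [this, zero_mul]
    positivity
  · rcases Nat.eq_zero_or_pos M with hM | hM
    · subst hM
      have : up ν b 0 = 0 := by
        unfold up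
        rw [Nat.cast_zero, Real.zero_rpow (by positivity), zero_mul]
      rw [this, mul_zero]
      positivity
    · have hN0 : (0 : ℝ) < N := by
        have : 0 < N := by omega
        exact_mod_cast this
      have hM0 : (0 : ℝ) < M := by exact_mod_cast hM
      have hMN' : (M : ℝ) ≤ N := by exact_mod_cast hMN
      have hNB' : (N : ℝ) ≤ B := by exact_mod_cast hNB
      have hq := qe_pos' hν0 hN
      have hqs := Real.sqrt_pos.2 hq
      have e1 : qe ν M ≤ K ^ 2 * qe ν N := by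
        calc qe ν M ≤ K * (M : ℝ) ^ (ν - 1) := h2 M hM
          _ ≤ K * (N : ℝ) ^ (ν - 1) := by
              apply mul_le_mul_of_nonneg_left _ hK0.le
              exact Real.rpow_le_rpow hM0.le hMN' (by linarith)
          _ ≤ K * (K * qe ν N) := mul_le_mul_of_nonneg_left (h1 N hN) hK0.le
          _ = _ := by ring
      have e2 : Real.sqrt (qe ν M) ≤ K * Real.sqrt (qe ν N) := by
        calc Real.sqrt (qe ν M) ≤ Real.sqrt (K ^ 2 * qe ν N) := Real.sqrt_le_sqrt e1
          _ = K * Real.sqrt (qe ν N) := by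
              rw [Real.sqrt_mul (by positivity), Real.sqrt_sq hK0.le]
      unfold Fp up
      have e3 : (N : ℝ) ^ (b / 2) ≤ (B : ℝ) ^ (b / 2) :=
        Real.rpow_le_rpow hN0.le hNB' (by positivity)
      have e4 : (M : ℝ) ^ (b / 2) ≤ (B : ℝ) ^ (b / 2) :=
        Real.rpow_le_rpow hM0.le (hMN'.trans hNB') (by positivity)
      have e5 : (B : ℝ) ^ (b / 2) * (B : ℝ) ^ (b / 2) = (B : ℝ) ^ b := by
        rw [← Real.rpow_add (lt_of_lt_of_le hN0 hNB')]
        congr 1
        ring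
      have e6 : (0 : ℝ) ≤ (N : ℝ) ^ (b / 2) := Real.rpow_nonneg hN0.le _
      have e7 : (0 : ℝ) ≤ (M : ℝ) ^ (b / 2) := Real.rpow_nonneg hM0.le _
      have e8 : Real.sqrt (qe ν M) / Real.sqrt (qe ν N) ≤ K := by
        rw [div_le_iff₀ hqs]; exact e2
      calc (N : ℝ) ^ (b / 2) / Real.sqrt (qe ν N) * ((M : ℝ) ^ (b / 2) * Real.sqrt (qe ν M))
          = ((N : ℝ) ^ (b / 2) * (M : ℝ) ^ (b / 2)) * (Real.sqrt (qe ν M) / Real.sqrt (qe ν N)) := by
            ring
        _ ≤ ((B : ℝ) ^ (b / 2) * (B : ℝ) ^ (b / 2)) * K := by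
            apply mul_le_mul _ e8 (by positivity) (by positivity)
            exact mul_le_mul e3 e4 e7 (e6.trans e3)
        _ = K * (B : ℝ) ^ b := by rw [e5]; ring

/-- the exponent -/
noncomputable def aa (ν b : ℝ) : ℝ := (b + ν - 1) / 2

theorem up_lim {ν b : ℝ} (hν : 1 ≤ ν) :
    Tendsto (fun n : ℕ => up ν b n / (n : ℝ) ^ (aa ν b)) atTop (𝓝 (Real.sqrt (CQ ν))) := by
  have h1 := (Real.continuous_sqrt.tendsto _).comp (qe_lim hν)
  refine h1.congr' ?_
  filter_upwards [eventually_ge_atTop 1] with n hn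
  have hn0 : (0 : ℝ) < n := by exact_mod_cast hn
  simp only [Function.comp]
  unfold up aa
  rw [Real.sqrt_div (qe_nonneg (by linarith) n), Real.sqrt_eq_rpow ((n : ℝ) ^ (ν - 1)),
    ← Real.rpow_mul hn0.le, mul_comm ((n : ℝ) ^ (b / 2)), mul_div_assoc, ← Real.rpow_sub hn0,
    div_eq_mul_inv, ← Real.rpow_neg hn0.le]
  congr 2
  ring

theorem Fp_lim {ν b : ℝ} (hν : 1 ≤ ν) :
    Tendsto (fun n : ℕ => Fp ν b n / (n : ℝ) ^ (b - aa ν b)) atTop (𝓝 (Real.sqrt (CQ ν))⁻¹) := by
  have h1 := ((Real.continuous_sqrt.tendsto _).comp (qe_lim hν)).inv₀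
    (Real.sqrt_pos.2 (CQ_pos (show 0 < ν by linarith))).ne'
  refine h1.congr' ?_
  filter_upwards [eventually_ge_atTop 1] with n hn
  have hn0 : (0 : ℝ) < n := by exact_mod_cast hn
  simp only [Function.comp]
  unfold Fp aa
  rw [Real.sqrt_div (qe_nonneg (by linarith) n), Real.sqrt_eq_rpow ((n : ℝ) ^ (ν - 1)),
    ← Real.rpow_mul hn0.le, inv_div, div_right_comm, ← Real.rpow_sub hn0]
  congr 2
  ring

/-- scaled limit of `up` -/
theorem up_sc {ν b : ℝ} (hν : 1 ≤ ν) (M : ℕ → ℕ) (x : ℝ) (hx : 0 < x)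
    (hM : Tendsto (fun B : ℕ => (M B : ℝ) / B) atTop (𝓝 x)) :
    Tendsto (fun B : ℕ => up ν b (M B) / (B : ℝ) ^ (aa ν b)) atTop
      (𝓝 (Real.sqrt (CQ ν) * x ^ (aa ν b))) := by
  have hMt : Tendsto M atTop atTop := by
    have h1 : Tendsto (fun B : ℕ => (M B : ℝ) / B * B) atTop atTop :=
      Tendsto.pos_mul_atTop hx hM tendsto_natCast_atTop_atTop
    rw [← tendsto_natCast_atTop_iff (R := ℝ)]
    refine h1.congr' ?_
    filter_upwards [eventually_ge_atTop 1] with B hB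
    have : (B : ℝ) ≠ 0 := by positivity
    field_simp
  have h1 := (up_lim (b := b) hν).comp hMt
  have h2 := (Real.continuousAt_rpow_const x (aa ν b) (Or.inl hx.ne')).tendsto.comp hM
  refine (h1.mul h2).congr' ?_
  filter_upwards [eventually_ge_atTop 1, hMt.eventually_ge_atTop 1] with B hB hMB
  have hB0 : (0 : ℝ) < B := by exact_mod_cast hB
  have hM0 : (0 : ℝ) < M B := by exact_mod_cast hMB
  simp only [Function.comp]
  rw [Real.div_rpow hM0.le hB0.le]
  have := (Real.rpow_pos_of_pos hM0 (aa ν b)).ne'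
  field_simp

/-- scaled limit of `Fp` -/
theorem Fp_sc {ν b : ℝ} (hν : 1 ≤ ν) (M : ℕ → ℕ) (x : ℝ) (hx : 0 < x)
    (hM : Tendsto (fun B : ℕ => (M B : ℝ) / B) atTop (𝓝 x)) :
    Tendsto (fun B : ℕ => Fp ν b (M B) / (B : ℝ) ^ (b - aa ν b)) atTop
      (𝓝 ((Real.sqrt (CQ ν))⁻¹ * x ^ (b - aa ν b))) := by
  have hMt : Tendsto M atTop atTop := by
    have h1 : Tendsto (fun B : ℕ => (M B : ℝ) / B * B) atTop atTop :=
      Tendsto.pos_mul_atTop hx hM tendsto_natCast_atTop_atTop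
    rw [← tendsto_natCast_atTop_iff (R := ℝ)]
    refine h1.congr' ?_
    filter_upwards [eventually_ge_atTop 1] with B hB
    have : (B : ℝ) ≠ 0 := by positivity
    field_simp
  have h1 := (Fp_lim (b := b) hν).comp hMt
  have h2 := (Real.continuousAt_rpow_const x (b - aa ν b) (Or.inl hx.ne')).tendsto.comp hM
  refine (h1.mul h2).congr' ?_
  filter_upwards [eventually_ge_atTop 1, hMt.eventually_ge_atTop 1] with B hB hMB
  have hB0 : (0 : ℝ) < B := by exact_mod_cast hB
  have hM0 : (0 : ℝ) < M B := by exact_mod_cast hMB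
  simp only [Function.comp]
  rw [Real.div_rpow hM0.le hB0.le]
  have := (Real.rpow_pos_of_pos hM0 (b - aa ν b)).ne'
  field_simp

/-- the inner term -/
noncomputable def ci (ν b c κ : ℝ) (B N m : ℕ) : ℝ :=
  if 2 ≤ m ∧ m ≤ N ∧ N ≤ B then smid (κ / B) c m * (Fp ν b N * up ν b (N - m) / (B : ℝ) ^ b) else 0

/-- the inner sum -/
noncomputable def JJ (ν b c κ : ℝ) (B N : ℕ) : ℝ := ∑ m ∈ Finset.range (B + 1), ci ν b c κ B N m

theorem ci_bd {ν b c κ : ℝ} (hc : 0 < c) (hκ : 0 < κ) {K : ℝ} (hK0 : 0 < K)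
    (hK : ∀ M N B : ℕ, M ≤ N → N ≤ B → Fp ν b N * up ν b M ≤ K * (B : ℝ) ^ b) (B N m : ℕ) :
    |(B : ℝ) * ci ν b c κ B N m| ≤ Real.pi * c * κ * K := by
  have hpc : 0 < Real.pi * c := by have := Real.pi_pos; positivity
  unfold ci
  split_ifs with h
  · have hB : 0 < B := by omega
    have hB0 : (0 : ℝ) < B := by exact_mod_cast hB
    have h1 := smid_le (κ / B) c m (by positivity) hc (by omega)
    have h2 : 0 ≤ Fp ν b N * up ν b (N - m) / (B : ℝ) ^ b :=
      div_nonneg (mul_nonneg (Fp_nonneg _ _ _) (up_nonneg _ _ _)) (Real.rpow_nonneg hB0.le _)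
    have h3 : Fp ν b N * up ν b (N - m) / (B : ℝ) ^ b ≤ K := by
      rw [div_le_iff₀ (Real.rpow_pos_of_pos hB0 b)]
      exact hK _ _ _ (Nat.sub_le _ _) h.2.2
    rw [abs_mul, abs_mul, abs_of_pos hB0, abs_of_nonneg h2]
    calc (B : ℝ) * (|smid (κ / B) c m| * (Fp ν b N * up ν b (N - m) / (B : ℝ) ^ b))
        ≤ B * ((Real.pi * c * (κ / B)) * K) := by
          apply mul_le_mul_of_nonneg_left _ hB0.le
          apply mul_le_mul h1 h3 h2 (by positivity)
      _ = _ := by field_simp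
  · rw [mul_zero, abs_zero]; positivity

theorem JJ_bd {ν b c κ : ℝ} (hc : 0 < c) (hκ : 0 < κ) {K : ℝ} (hK0 : 0 < K)
    (hK : ∀ M N B : ℕ, M ≤ N → N ≤ B → Fp ν b N * up ν b M ≤ K * (B : ℝ) ^ b) (B N : ℕ) :
    |JJ ν b c κ B N| ≤ 2 * (Real.pi * c * κ * K) := by
  have hpc : 0 < Real.pi * c := by have := Real.pi_pos; positivity
  rcases Nat.eq_zero_or_pos B with hB | hB
  · subst hB
    unfold JJ
    rw [zero_add, Finset.sum_range_one]
    unfold ci
    rw [if_neg (by omega), abs_zero]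
    positivity
  · have hB0 : (0 : ℝ) < B := by exact_mod_cast hB
    have hB1 : (1 : ℝ) ≤ B := by exact_mod_cast hB
    have h1 : (B : ℝ) * |JJ ν b c κ B N| ≤ ((B : ℝ) + 1) * (Real.pi * c * κ * K) := by
      rw [← abs_of_pos hB0, ← abs_mul, abs_of_pos hB0]
      unfold JJ
      rw [Finset.mul_sum]
      refine (Finset.abs_sum_le_sum_abs _ _).trans ?_
      calc ∑ m ∈ Finset.range (B + 1), |(B : ℝ) * ci ν b c κ B N m| ≤
          ∑ m ∈ Finset.range (B + 1), (Real.pi * c * κ * K) :=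
            Finset.sum_le_sum (fun m _ => ci_bd hc hκ hK0 hK B N m)
        _ = _ := by
            rw [Finset.sum_const, Finset.card_range, nsmul_eq_mul]
            push_cast; ring
    have h2 : (0 : ℝ) ≤ Real.pi * c * κ * K := by positivity
    have h3 : ((B : ℝ) + 1) * (Real.pi * c * κ * K) ≤ B * (2 * (Real.pi * c * κ * K)) := by
      nlinarith
    exact le_of_mul_le_mul_left (h1.trans h3) hB0

/-- the inner limit -/
theorem JJ_lim {ν b c κ : ℝ} (hν : 1 ≤ ν) (hb : 0 < b) (hc : 0 < c) (hκ : 0 < κ) {s : ℝ}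
    (hs : 0 < s) (hs1 : s < 1) :
    Tendsto (fun B : ℕ => JJ ν b c κ B ⌊s * B⌋₊) atTop
      (𝓝 (∫ v in (0 : ℝ)..2, if v < s then κ * phi c (κ * v) *
        (s ^ (b - aa ν b) * (s - v) ^ (aa ν b)) else 0)) := by
  obtain ⟨K, hK0, hK⟩ := FU_bd hν hb
  unfold JJ
  apply riem (fun B m => ci ν b c κ B ⌊s * B⌋₊ m) _ (Real.pi * c * κ * K) {s}
    (Set.countable_singleton _)
  · intro B m
    exact ci_bd hc hκ hK0 hK B _ m
  · intro B m hm
    unfold ci
    rw [if_neg]
    rintro ⟨-, h2, h3⟩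
    omega
  · intro v hv hvs
    have hvs' : v ≠ s := hvs
    have hm := floor_div_lim v hv.le
    have hN := floor_div_lim s hs.le
    have hCq := Real.sqrt_pos.2 (CQ_pos (show 0 < ν by linarith))
    rcases lt_or_gt_of_ne hvs' with h | h
    · rw [if_pos h]
      have l1 := smid_lim c κ v hc hκ hv
      have hlt : ∀ᶠ B : ℕ in atTop, ((⌊v * B⌋₊ : ℕ) : ℝ) / B < ((⌊s * B⌋₊ : ℕ) : ℝ) / B :=
        hm.eventually_lt hN h
      have hd : Tendsto (fun B : ℕ => ((⌊s * B⌋₊ - ⌊v * B⌋₊ : ℕ) : ℝ) / B) atTop (𝓝 (s - v)) := by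
        refine (hN.sub hm).congr' ?_
        filter_upwards [hlt, eventually_ge_atTop 1] with B hB hB1
        have hB0 : (0 : ℝ) < B := by exact_mod_cast hB1
        rw [div_lt_div_iff_of_pos_right hB0] at hB
        have h5 : ⌊v * (B : ℝ)⌋₊ < ⌊s * (B : ℝ)⌋₊ := by exact_mod_cast hB
        rw [Nat.cast_sub h5.le]
        ring
      have l2 := up_sc (b := b) hν _ (s - v) (by linarith) hd
      have l3 := Fp_sc (b := b) hν _ s hs hN
      have e0 : κ * phi c (κ * v) * (s ^ (b - aa ν b) * (s - v) ^ (aa ν b)) =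
          κ * phi c (κ * v) * (((Real.sqrt (CQ ν))⁻¹ * s ^ (b - aa ν b)) *
            (Real.sqrt (CQ ν) * (s - v) ^ (aa ν b))) := by
        field_simp
      rw [e0]
      apply (l1.mul (l3.mul l2)).congr'
      have h4 : ∀ᶠ B : ℕ in atTop, ((⌊s * B⌋₊ : ℕ) : ℝ) / B < 1 := hN.eventually_lt_const hs1
      filter_upwards [h4, hlt, eventually_ge_atTop 1, (floor_top v hv).eventually_ge_atTop 2]
        with B hB hB2 hB1 h2
      have hB0 : (0 : ℝ) < B := by exact_mod_cast hB1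
      rw [div_lt_one hB0] at hB
      have h5 : ⌊s * (B : ℝ)⌋₊ < B := by exact_mod_cast hB
      rw [div_lt_div_iff_of_pos_right hB0] at hB2
      have h6 : ⌊v * (B : ℝ)⌋₊ < ⌊s * (B : ℝ)⌋₊ := by exact_mod_cast hB2
      unfold ci
      rw [if_pos ⟨h2, h6.le, h5.le⟩]
      have e1 : (B : ℝ) ^ b = (B : ℝ) ^ (b - aa ν b) * (B : ℝ) ^ (aa ν b) := by
        rw [← Real.rpow_add hB0]
        congr 1
        ring
      rw [e1]
      ring
    · rw [if_neg (by linarith)]
      have hlt : ∀ᶠ B : ℕ in atTop, ((⌊s * B⌋₊ : ℕ) : ℝ) / B < ((⌊v * B⌋₊ : ℕ) : ℝ) / B :=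
        hN.eventually_lt hm h
      apply tendsto_const_nhds.congr'
      filter_upwards [hlt, eventually_ge_atTop 1] with B hB hB1
      have hB0 : (0 : ℝ) < B := by exact_mod_cast hB1
      rw [div_lt_div_iff_of_pos_right hB0] at hB
      have h6 : ⌊s * (B : ℝ)⌋₊ < ⌊v * (B : ℝ)⌋₊ := by exact_mod_cast hB
      unfold ci
      rw [if_neg, mul_zero]
      rintro ⟨-, h2, -⟩
      omega

/-- `G_a(μ) = ∫_0^1 sin(μy)/y (1-y)^a dy` -/
noncomputable def Gf (a μ : ℝ) : ℝ := ∫ y in (0 : ℝ)..1, μ * Real.sinc (μ * y) * (1 - y) ^ a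

theorem inner_int {ν b c κ : ℝ} (ha : 0 < aa ν b) {s : ℝ} (hs : 0 < s) (hs1 : s < 1) :
    (∫ v in (0 : ℝ)..2, if v < s then κ * phi c (κ * v) *
        (s ^ (b - aa ν b) * (s - v) ^ (aa ν b)) else 0) =
      s ^ b * Gf (aa ν b) (Real.pi * c * κ * s) := by
  set a := aa ν b with haa
  set f : ℝ → ℝ := fun v => κ * phi c (κ * v) * (s ^ (b - a) * (s - v) ^ a) with hf
  have hfc : Continuous f := by
    have h1 := phi_cont c
    have h2 : Continuous (fun v : ℝ => (s - v) ^ a) :=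
      (Real.continuous_rpow_const ha.le).comp (continuous_const.sub continuous_id)
    simp only [hf]
    exact (continuous_const.mul (h1.comp (continuous_const.mul continuous_id))).mul
      (continuous_const.mul h2)
  have h1 : EqOn f (fun v => if v < s then f v else 0) (Ioo 0 s) := by
    intro x hx
    simp only
    rw [if_pos hx.2]
  have h2 : EqOn (fun _ : ℝ => (0 : ℝ)) (fun v => if v < s then f v else 0) (Ioo s 2) := by
    intro x hx
    simp only
    rw [if_neg (by linarith [hx.1])]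
  have i1 : IntervalIntegrable (fun v => if v < s then f v else 0) volume 0 s := by
    rw [intervalIntegrable_iff_integrableOn_Ioo_of_le hs.le]
    refine IntegrableOn.congr_fun ?_ h1 measurableSet_Ioo
    rw [← intervalIntegrable_iff_integrableOn_Ioo_of_le hs.le]
    exact hfc.intervalIntegrable _ _
  have i2 : IntervalIntegrable (fun v => if v < s then f v else 0) volume s 2 := by
    rw [intervalIntegrable_iff_integrableOn_Ioo_of_le (by linarith)]
    refine IntegrableOn.congr_fun ?_ h2 measurableSet_Ioo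
    exact integrableOn_zero
  rw [← intervalIntegral.integral_add_adjacent_intervals i1 i2]
  have e1 : ∫ x in (0 : ℝ)..s, (if x < s then f x else 0) = ∫ x in (0 : ℝ)..s, f x := by
    rw [intervalIntegral.integral_of_le hs.le, integral_Ioc_eq_integral_Ioo,
        ← setIntegral_congr_fun measurableSet_Ioo h1, ← integral_Ioc_eq_integral_Ioo,
        ← intervalIntegral.integral_of_le hs.le]
  have e2 : ∫ x in s..2, (if x < s then f x else 0) = 0 := by
    rw [intervalIntegral.integral_of_le (by linarith), integral_Ioc_eq_integral_Ioo,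
        ← setIntegral_congr_fun measurableSet_Ioo h2]
    simp
  rw [e1, e2, add_zero]
  have e3 := intervalIntegral.integral_comp_mul_left (a := 0) (b := 1) f hs.ne'
  rw [mul_zero, mul_one, smul_eq_mul] at e3
  have e4 : ∫ x in (0 : ℝ)..s, f x = s * ∫ x in (0 : ℝ)..1, f (s * x) := by
    rw [e3]; field_simp
  rw [e4]
  unfold Gf
  rw [← intervalIntegral.integral_const_mul, ← intervalIntegral.integral_const_mul]
  apply intervalIntegral.integral_congr
  intro y hy
  rw [uIcc_of_le zero_le_one] at hy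
  have hy1 : 0 ≤ 1 - y := by linarith [hy.2]
  simp only [hf, phi]
  have e5 : s - s * y = s * (1 - y) := by ring
  rw [e5, Real.mul_rpow hs.le hy1]
  have e6 : s ^ b = s ^ (b - a) * s ^ a := by
    rw [← Real.rpow_add hs]
    congr 1
    ring
  rw [e6, show Real.pi * c * (κ * (s * y)) = Real.pi * c * κ * s * y by ring]
  ring

theorem outer_lim {ν b c κ : ℝ} (hν : 1 ≤ ν) (hb : 0 < b) (hc : 0 < c) (hκ : 0 < κ) :
    Tendsto (fun B : ℕ => ∑ N ∈ Finset.range (B + 1), JJ ν b c κ B N / B) atTop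
      (𝓝 (∫ s in (0 : ℝ)..2, if s < 1 then s ^ b * Gf (aa ν b) (Real.pi * c * κ * s) else 0)) := by
  obtain ⟨K, hK0, hK⟩ := FU_bd hν hb
  have ha : 0 < aa ν b := by unfold aa; linarith
  have hpc : 0 < Real.pi * c := by have := Real.pi_pos; positivity
  have hred : ∀ B : ℕ, ∑ N ∈ Finset.range (B + 1), JJ ν b c κ B N / B =
      ∑ N ∈ Finset.range (B + 1), (if N ≤ B then JJ ν b c κ B N / B else 0) := by
    intro B
    apply Finset.sum_congr rfl
    intro N hN
    rw [Finset.mem_range] at hN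
    rw [if_pos (by omega)]
  simp_rw [hred]
  apply riem (fun B N => if N ≤ B then JJ ν b c κ B N / B else 0) _ (2 * (Real.pi * c * κ * K)) {1}
    (Set.countable_singleton _)
  · intro B N
    split_ifs with h
    · rcases Nat.eq_zero_or_pos B with hB | hB
      · subst hB; simp; positivity
      · have hB0 : (B : ℝ) ≠ 0 := by positivity
        rw [mul_div_cancel₀ _ hB0]
        exact JJ_bd hc hκ hK0 hK B N
    · rw [mul_zero, abs_zero]; positivity
  · intro B N hN
    rw [if_neg (by omega)]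
  · intro s hs hs1
    have hs1' : s ≠ 1 := hs1
    have hN := floor_div_lim s hs.le
    rcases lt_or_gt_of_ne hs1' with h | h
    · rw [if_pos h, ← inner_int ha hs h]
      apply (JJ_lim hν hb hc hκ hs h).congr'
      have h4 : ∀ᶠ B : ℕ in atTop, ((⌊s * B⌋₊ : ℕ) : ℝ) / B < 1 := hN.eventually_lt_const h
      filter_upwards [h4, eventually_ge_atTop 1] with B hB hB1
      have hB0 : (0 : ℝ) < B := by exact_mod_cast hB1
      rw [div_lt_one hB0] at hB
      have h5 : ⌊s * (B : ℝ)⌋₊ < B := by exact_mod_cast hB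
      rw [if_pos h5.le, mul_div_cancel₀ _ hB0.ne']
    · rw [if_neg (by linarith)]
      have h4 : ∀ᶠ B : ℕ in atTop, 1 < ((⌊s * B⌋₊ : ℕ) : ℝ) / B := hN.eventually_const_lt h
      apply tendsto_const_nhds.congr'
      filter_upwards [h4, eventually_ge_atTop 1] with B hB hB1
      have hB0 : (0 : ℝ) < B := by exact_mod_cast hB1
      rw [one_lt_div hB0] at hB
      have : B < ⌊s * (B : ℝ)⌋₊ := by exact_mod_cast hB
      rw [if_neg (by omega), mul_zero]

end RGP
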