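import Pool.Agent.TH861.RGP.Arc

/-! # r-gaps: the explicit lower bound for the functional and the numerical inequalities -/

open Filter Topology Set MeasureTheory

namespace RGP

open RGap (PosLarge PosSmall PosT)

/-- pointwise lower bound -/
theorem arctan_pt {x c0 c1 : ℝ} (hx : 0 < x)
    (h : ∀ t : ℝ, 0 ≤ t → t ≤ 1 → 1 ≤ (1 + x ^ 2 * t ^ 2) * (c0 - c1 * t)) {s : ℝ} (hs0 : 0 ≤ s)
    (hs1 : s ≤ 1) :
    Real.arctan x - x * (c0 * (1 - s) - c1 * (1 - s ^ 2) / 2) ≤ Real.arctan (x * s) := by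
  set Φ : ℝ → ℝ := fun s => Real.arctan (x * s) + x * (c0 * (1 - s) - c1 * (1 - s ^ 2) / 2) with hΦ
  have hd : ∀ s : ℝ, HasDerivAt Φ (x / (1 + (x * s) ^ 2) - x * (c0 - c1 * s)) s := by
    intro s
    have e1 : HasDerivAt (fun s : ℝ => x * s) x s := by
      simpa using (hasDerivAt_id s).const_mul x
    have e2 : HasDerivAt (fun s : ℝ => x * (c0 * (1 - s) - c1 * (1 - s ^ 2) / 2))
        (x * (c0 * (-1) - c1 * (-(2 * s)) / 2)) s := by
      have a1 : HasDerivAt (fun s : ℝ => 1 - s) (-1) s := by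
        simpa using (hasDerivAt_id s).const_sub 1
      have a2 : HasDerivAt (fun s : ℝ => 1 - s ^ 2) (-(2 * s)) s := by
        simpa using (hasDerivAt_pow 2 s).const_sub 1
      exact ((a1.const_mul c0).sub ((a2.const_mul c1).div_const 2)).const_mul x
    have e3 := e1.arctan.add e2
    refine e3.congr_deriv ?_
    ring
  have hanti : AntitoneOn Φ (Icc 0 1) := by
    apply antitoneOn_of_deriv_nonpos (convex_Icc 0 1)
    · exact fun s _ => (hd s).continuousAt.continuousWithinAt
    · exact fun s _ => (hd s).differentiableAt.differentiableWithinAt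
    · intro s hs
      rw [interior_Icc] at hs
      rw [(hd s).deriv]
      have h1 := h s hs.1.le hs.2.le
      have h2 : 0 < 1 + (x * s) ^ 2 := by positivity
      rw [sub_nonpos, div_le_iff₀ h2]
      have h3 : 1 + (x * s) ^ 2 = 1 + x ^ 2 * s ^ 2 := by ring
      rw [h3]
      nlinarith
  have h1 := hanti ⟨hs0, hs1⟩ ⟨zero_le_one, le_rfl⟩ hs1
  simp only [hΦ, mul_one] at h1
  have h2 : x * (c0 * (1 - 1) - c1 * (1 - 1 ^ 2) / 2) = 0 := by ring
  linarith

/-- lower bound for the functional -/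
theorem LF_lower {ν b lam c0 c1 : ℝ} (hν : 1 ≤ ν) (hb : 0 < b) (hl : 0 < lam)
    (ha : 3 < b + ν) (hx : 2 * lam / (b + ν + 1) ≤ 13 / 10)
    (h : ∀ t : ℝ, 0 ≤ t → t ≤ 1 → 1 ≤ (1 + (2 * lam / (b + ν + 1)) ^ 2 * t ^ 2) * (c0 - c1 * t)) :
    4 * Real.sqrt ν / Real.pi * (Real.arctan (2 * lam / (b + ν + 1)) -
      2 * lam / (b + ν + 1) * (c0 / (b + 2) - c1 / (b + 3))) ≤ LF ν b lam := by
  have ha' : 1 < aa ν b := by unfold aa; linarith
  have hP : aa ν b + 1 = (b + ν + 1) / 2 := by unfold aa; ring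
  set x : ℝ := 2 * lam / (b + ν + 1) with hxd
  have hx0 : 0 < x := by positivity
  have hxe : ∀ s : ℝ, lam * s / (aa ν b + 1) = x * s := by
    intro s
    rw [hP, hxd]
    have : b + ν + 1 ≠ 0 := by positivity
    field_simp
  unfold LF
  apply mul_le_mul_of_nonneg_left _ (by positivity)
  have hpt : ∀ s ∈ Icc (0 : ℝ) 1, s ^ b * (Real.arctan x - x * (c0 * (1 - s) - c1 * (1 - s ^ 2) / 2)) ≤
      s ^ b * Gf (aa ν b) (lam * s) := by
    intro s hs
    apply mul_le_mul_of_nonneg_left _ (Real.rpow_nonneg hs.1 _)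
    refine (arctan_pt hx0 h hs.1 hs.2).trans ?_
    rcases hs.1.eq_or_lt with h0 | h0
    · rw [← h0, mul_zero, mul_zero, Real.arctan_zero]
      unfold Gf
      simp
    · have h2 := arc_bound (lam := lam * s) ha' (by positivity) (by
        rw [hxe]
        calc x * s ≤ x * 1 := mul_le_mul_of_nonneg_left hs.2 hx0.le
          _ ≤ 13 / 10 := by rw [mul_one]; exact hx)
      rwa [hxe] at h2
  have hcb : Continuous (fun s : ℝ => s ^ b) := Real.continuous_rpow_const hb.le
  have j1 : IntervalIntegrable (fun s : ℝ => s ^ b * (Real.arctan x - x * (c0 * (1 - s) -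
      c1 * (1 - s ^ 2) / 2))) volume 0 1 := by
    apply Continuous.intervalIntegrable
    exact hcb.mul (by fun_prop)
  have j2 : IntervalIntegrable (fun s : ℝ => s ^ b * Gf (aa ν b) (lam * s)) volume 0 1 := by
    apply Continuous.intervalIntegrable
    exact hcb.mul ((Gf_cont (by linarith : (0 : ℝ) < aa ν b)).comp
      (continuous_const.mul continuous_id))
  have hint := intervalIntegral.integral_mono_on zero_le_one j1 j2 hpt
  have hb1 : (0 : ℝ) < b + 1 := by linarith
  refine le_trans (le_of_eq ?_) (mul_le_mul_of_nonneg_left hint hb1.le)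
  -- evaluate the left integral
  have r0 : ∫ s in (0 : ℝ)..1, s ^ b = 1 / (b + 1) := by
    rw [integral_rpow (Or.inl (by linarith)), Real.one_rpow, Real.zero_rpow (by positivity), sub_zero]
  have r1 : ∫ s in (0 : ℝ)..1, s ^ (b + 1) = 1 / (b + 2) := by
    rw [integral_rpow (Or.inl (by linarith)), Real.one_rpow, Real.zero_rpow (by positivity), sub_zero]
    congr 1; ring
  have r2 : ∫ s in (0 : ℝ)..1, s ^ (b + 2) = 1 / (b + 3) := by
    rw [integral_rpow (Or.inl (by linarith)), Real.one_rpow, Real.zero_rpow (by positivity), sub_zero]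
    congr 1; ring
  have i0 : IntervalIntegrable (fun s : ℝ => s ^ b) volume 0 1 := hcb.intervalIntegrable _ _
  have i1 : IntervalIntegrable (fun s : ℝ => s ^ (b + 1)) volume 0 1 :=
    (Real.continuous_rpow_const (by linarith)).intervalIntegrable _ _
  have i2 : IntervalIntegrable (fun s : ℝ => s ^ (b + 2)) volume 0 1 :=
    (Real.continuous_rpow_const (by linarith)).intervalIntegrable _ _
  have e1 : ∫ s in (0 : ℝ)..1, s ^ b * (Real.arctan x - x * (c0 * (1 - s) - c1 * (1 - s ^ 2) / 2)) =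
      ∫ s in (0 : ℝ)..1, ((Real.arctan x - x * (c0 - c1 / 2)) * s ^ b + x * c0 * s ^ (b + 1) -
        x * c1 / 2 * s ^ (b + 2)) := by
    apply intervalIntegral.integral_congr
    intro s hs
    rw [uIcc_of_le zero_le_one] at hs
    simp only
    rcases hs.1.eq_or_lt with h0 | h0
    · rw [← h0, Real.zero_rpow hb.ne', Real.zero_rpow (by positivity), Real.zero_rpow (by positivity)]
      ring
    · rw [Real.rpow_add_one h0.ne', show b + 2 = b + 1 + 1 by ring, Real.rpow_add_one h0.ne',
        Real.rpow_add_one h0.ne']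
      ring
  have e2 : ∫ s in (0 : ℝ)..1, s ^ b * (Real.arctan x - x * (c0 * (1 - s) - c1 * (1 - s ^ 2) / 2)) =
      (Real.arctan x - x * (c0 - c1 / 2)) * (1 / (b + 1)) + x * c0 * (1 / (b + 2)) -
        x * c1 / 2 * (1 / (b + 3)) := by
    rw [e1, intervalIntegral.integral_sub ((i0.const_mul _).add (i1.const_mul _)) (i2.const_mul _),
      intervalIntegral.integral_add (i0.const_mul _) (i1.const_mul _),
      intervalIntegral.integral_const_mul, intervalIntegral.integral_const_mul,
      intervalIntegral.integral_const_mul, r0, r1, r2]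
  rw [e2]
  field_simp
  ring

end RGP
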