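import Pool.Agent.H297R2.LG.Defs

/-! # r-gaps: the ideal sequence `e^{-νz}(1-z)^{-ν}` for real `ν` -/

open Complex Filter Topology Set MeasureTheory

namespace RGP

open LG (IsQ)

/-- `t_1 = 0`, `t_m = ν` for `m ≥ 2` -/
noncomputable def tn (ν : ℝ) (m : ℕ) : ℝ := if 2 ≤ m then ν else 0

theorem tn_sum (ν : ℝ) (q : ℕ → ℝ) (n : ℕ) :
    ∑ m ∈ Finset.Icc 1 (n + 1), tn ν m * q (n + 1 - m) = ν * ∑ i ∈ Finset.range n, q i := by
  have h1 : ∑ m ∈ Finset.Icc 1 (n + 1), tn ν m * q (n + 1 - m)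
      = ∑ k ∈ Finset.range (n + 1), tn ν (k + 1) * q (n + 1 - (k + 1)) := by
    rw [Finset.sum_bij' (fun m _ => m - 1) (fun k _ => k + 1)]
    · intro a ha; simp only [Finset.mem_Icc] at ha; simp only [Finset.mem_range]; omega
    · intro a ha; simp only [Finset.mem_range] at ha; simp only [Finset.mem_Icc]; omega
    · intro a ha; simp only [Finset.mem_Icc] at ha; omega
    · intro a ha; omega
    · intro a ha; simp only [Finset.mem_Icc] at ha
      rw [show a - 1 + 1 = a by omega]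
  have h2 : ∑ k ∈ Finset.range (n + 1), tn ν (k + 1) * q (n + 1 - (k + 1))
      = ∑ k ∈ Finset.range (n + 1), (fun i => tn ν (n + 1 - i) * q i) (n + 1 - 1 - k) := by
    apply Finset.sum_congr rfl
    intro k hk
    simp only [Finset.mem_range] at hk
    simp only
    have e1 : n + 1 - (k + 1) = n + 1 - 1 - k := by omega
    have e2 : n + 1 - (n + 1 - 1 - k) = k + 1 := by omega
    rw [e2, e1]
  rw [h1, h2, Finset.sum_range_reflect (fun i => tn ν (n + 1 - i) * q i) (n + 1),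
    Finset.sum_range_succ, Finset.mul_sum]
  have h3 : tn ν (n + 1 - n) = 0 := by simp [tn]
  rw [h3, zero_mul, add_zero]
  apply Finset.sum_congr rfl
  intro i hi
  simp only [Finset.mem_range] at hi
  have : tn ν (n + 1 - i) = ν := by
    unfold tn
    rw [if_pos (by omega)]
  rw [this]

theorem q_one {ν : ℝ} {N : ℕ} {q : ℕ → ℝ} (hq : IsQ N (tn ν) q) (hN : 1 ≤ N) : q 1 = 0 := by
  have := hq.2 1 le_rfl hN
  rw [tn_sum ν q 0] at this
  simpa using this

theorem q_rec {ν : ℝ} {N : ℕ} {q : ℕ → ℝ} (hq : IsQ N (tn ν) q) (n : ℕ) (hn : n + 2 ≤ N) :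
    ((n : ℝ) + 2) * q (n + 2) = ((n : ℝ) + 1) * q (n + 1) + ν * q n := by
  have h1 := hq.2 (n + 2) (by omega) hn
  have h2 := hq.2 (n + 1) (by omega) (by omega)
  rw [show n + 2 = (n + 1) + 1 by ring, tn_sum ν q (n + 1), Finset.sum_range_succ] at h1
  rw [tn_sum ν q n] at h2
  push_cast at h1 h2
  have h3 : q (n + 1 + 1) = q (n + 2) := by congr 1
  rw [h3] at h1
  nlinarith [h1, h2]

/-- the coefficients of `(1-z)^{-ν}` -/
noncomputable def An (ν : ℝ) (n : ℕ) : ℝ := ∏ i ∈ Finset.range n, ((ν + i) / (i + 1))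

theorem An_succ (ν : ℝ) (n : ℕ) : An ν (n + 1) * (n + 1) = An ν n * (ν + n) := by
  unfold An
  rw [Finset.prod_range_succ]
  have : ((n : ℝ) + 1) ≠ 0 := by positivity
  field_simp

theorem An_pos {ν : ℝ} (hν : 0 < ν) (n : ℕ) : 0 < An ν n := by
  unfold An
  apply Finset.prod_pos
  intro i _
  positivity

theorem An_mono {ν : ℝ} (hν : 1 ≤ ν) (n : ℕ) : An ν n ≤ An ν (n + 1) := by
  have h1 := An_succ ν n
  have h2 := An_pos (show 0 < ν by linarith) n
  have h3 : (0 : ℝ) < (n : ℝ) + 1 := by positivity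
  have h4 : An ν n * (n + 1) ≤ An ν (n + 1) * (n + 1) := by
    rw [h1]
    apply mul_le_mul_of_nonneg_left _ h2.le
    linarith
  exact le_of_mul_le_mul_right h4 h3

theorem An_mono' {ν : ℝ} (hν : 1 ≤ ν) : Monotone (An ν) := monotone_nat_of_le_succ (An_mono hν)

/-- `A_n ~ n^{ν-1} / Γ(ν)` -/
theorem An_lim {ν : ℝ} (hν : 0 < ν) :
    Tendsto (fun n : ℕ => An ν n / (n : ℝ) ^ (ν - 1)) atTop (𝓝 (1 / Real.Gamma ν)) := by
  have h := Real.GammaSeq_tendsto_Gamma ν
  have hG : Real.Gamma ν ≠ 0 := (Real.Gamma_pos_of_pos hν).ne'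
  have h1 := h.inv₀ hG
  have h2 : Tendsto (fun n : ℕ => (n : ℝ) / (ν + n)) atTop (𝓝 1) := by
    have h3 : Tendsto (fun n : ℕ => 1 / (ν * (1 / (n : ℝ)) + 1)) atTop (𝓝 (1 / (ν * 0 + 1))) := by
      apply Tendsto.div tendsto_const_nhds
      · exact (tendsto_one_div_atTop_nhds_zero_nat.const_mul ν).add_const 1
      · norm_num
    rw [mul_zero, zero_add, div_one] at h3
    apply h3.congr'
    filter_upwards [eventually_ge_atTop 1] with n hn
    have hn0 : (n : ℝ) ≠ 0 := by positivity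
    have hn1 : ν + (n : ℝ) ≠ 0 := by positivity
    have hn2 : ν * (1 / (n : ℝ)) + 1 ≠ 0 := by positivity
    field_simp
  have h4 := h2.mul h1
  rw [one_mul] at h4
  rw [one_div]
  apply h4.congr'
  filter_upwards [eventually_ge_atTop 1] with n hn
  have hn0 : (0 : ℝ) < n := by exact_mod_cast hn
  unfold Real.GammaSeq An
  rw [Finset.prod_range_succ, Finset.prod_div_distrib]
  have e1 : ∏ i ∈ Finset.range n, ((i : ℝ) + 1) = (n.factorial : ℝ) := by
    rw [← Finset.prod_range_add_one_eq_factorial]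
    push_cast
    rfl
  rw [e1]
  have e2 : (n : ℝ) ^ (ν - 1) = (n : ℝ) ^ ν / n := by
    rw [Real.rpow_sub_one hn0.ne']
  rw [e2]
  have hP : ∏ x ∈ Finset.range n, (ν + (x : ℝ)) ≠ 0 := by
    apply Finset.prod_ne_zero_iff.2
    intro i _
    positivity
  have hn1 : ν + (n : ℝ) ≠ 0 := by positivity
  have hf : (n.factorial : ℝ) ≠ 0 := by positivity
  have hr : (n : ℝ) ^ ν ≠ 0 := (Real.rpow_pos_of_pos hn0 ν).ne'
  field_simp

/-- the explicit solution -/
noncomputable def qe (ν : ℝ) (n : ℕ) : ℝ :=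
  ∑ j ∈ Finset.range (n + 1), (-ν) ^ j / (j.factorial : ℝ) * An ν (n - j)

noncomputable def Ee (ν : ℝ) : PowerSeries ℝ :=
  PowerSeries.mk (fun j => (-ν : ℝ) ^ j / (j.factorial : ℝ))

noncomputable def Ge (ν : ℝ) : PowerSeries ℝ := PowerSeries.mk (fun n => An ν n)

theorem coeff_EG (ν : ℝ) (n : ℕ) : PowerSeries.coeff n (Ee ν * Ge ν) = qe ν n := by
  rw [PowerSeries.coeff_mul, Finset.Nat.sum_antidiagonal_eq_sum_range_succ_mk]
  unfold qe Ee Ge
  apply Finset.sum_congr rfl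
  intro j hj
  simp [PowerSeries.coeff_mk]

theorem dE (ν : ℝ) : PowerSeries.derivative ℝ (Ee ν) = (-ν : ℝ) • (Ee ν) := by
  ext n
  rw [PowerSeries.coeff_derivative, PowerSeries.coeff_smul]
  unfold Ee
  simp only [PowerSeries.coeff_mk]
  rw [Nat.factorial_succ, pow_succ]
  have h1 : ((n : ℝ) + 1) ≠ 0 := by positivity
  have h2 : (n.factorial : ℝ) ≠ 0 := by positivity
  push_cast
  rw [smul_eq_mul]
  field_simp

theorem dG (ν : ℝ) : PowerSeries.derivative ℝ (Ge ν) =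
    PowerSeries.X * PowerSeries.derivative ℝ (Ge ν) + (ν : ℝ) • (Ge ν) := by
  ext n
  rw [map_add, PowerSeries.coeff_smul, PowerSeries.coeff_derivative]
  unfold Ge
  simp only [PowerSeries.coeff_mk]
  rcases n with _ | n
  · simp [PowerSeries.coeff_zero_X_mul, An]
  · rw [PowerSeries.coeff_succ_X_mul, PowerSeries.coeff_derivative]
    simp only [PowerSeries.coeff_mk]
    have h1 := An_succ ν (n + 1)
    push_cast at h1 ⊢
    simp only [smul_eq_mul]
    linarith

theorem qe_rec (ν : ℝ) (n : ℕ) :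
    ((n : ℝ) + 2) * qe ν (n + 2) = ((n : ℝ) + 1) * qe ν (n + 1) + ν * qe ν n := by
  have h : PowerSeries.derivative ℝ (Ee ν * Ge ν) =
      PowerSeries.X * PowerSeries.derivative ℝ (Ee ν * Ge ν) +
        PowerSeries.X * ((ν : ℝ) • (Ee ν * Ge ν)) := by
    rw [Derivation.leibniz, smul_eq_mul, smul_eq_mul, dE]
    have hG := dG ν
    set D := PowerSeries.derivative ℝ (Ge ν)
    have e1 : Ge ν * ((-ν : ℝ) • Ee ν) = (-ν : ℝ) • (Ee ν * Ge ν) := by
      rw [mul_smul_comm, mul_comm]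
    have e2 : Ee ν * D = PowerSeries.X * (Ee ν * D) + (ν : ℝ) • (Ee ν * Ge ν) := by
      conv_lhs => rw [hG]
      rw [mul_add, mul_smul_comm]
      ring
    rw [e1]
    conv_lhs => rw [e2]
    rw [mul_add]
    have e3 : PowerSeries.X * ((-ν : ℝ) • (Ee ν * Ge ν)) + PowerSeries.X * ((ν : ℝ) • (Ee ν * Ge ν)) = 0 := by
      rw [← mul_add, ← add_smul]; simp
    have e4 : (ν : ℝ) • (Ee ν * Ge ν) + (-ν : ℝ) • (Ee ν * Ge ν) = 0 := by
      rw [← add_smul]; simp
    rw [add_assoc, e4, add_assoc, e3]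
  have h2 := congrArg (PowerSeries.coeff (n + 1)) h
  rw [map_add, PowerSeries.coeff_succ_X_mul, PowerSeries.coeff_succ_X_mul,
    PowerSeries.coeff_derivative, PowerSeries.coeff_derivative, PowerSeries.coeff_smul,
    coeff_EG, coeff_EG, coeff_EG, smul_eq_mul] at h2
  push_cast at h2
  have h3 : qe ν (n + 1 + 1) = qe ν (n + 2) := rfl
  rw [h3] at h2
  linarith

theorem qe_zero (ν : ℝ) : qe ν 0 = 1 := by simp [qe, An]

theorem qe_one (ν : ℝ) : qe ν 1 = 0 := by
  simp [qe, Finset.sum_range_succ, An]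

theorem q_eq {ν : ℝ} {N : ℕ} {q : ℕ → ℝ} (hq : IsQ N (tn ν) q) (n : ℕ) (hn : n ≤ N) :
    q n = qe ν n := by
  induction n using Nat.strong_induction_on with
  | _ n ih =>
    rcases n with _ | _ | n
    · rw [qe_zero]; exact hq.1
    · rw [qe_one]; exact q_one hq hn
    · have h1 := q_rec hq n hn
      have h2 := qe_rec ν n
      rw [ih (n + 1) (by omega) (by omega), ih n (by omega) (by omega), ← h2] at h1
      exact mul_left_cancel₀ (by positivity) h1

theorem qe_nonneg {ν : ℝ} (hν : 0 < ν) (n : ℕ) : 0 ≤ qe ν n := by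
  induction n using Nat.strong_induction_on with
  | _ n ih =>
    rcases n with _ | _ | n
    · rw [qe_zero]; norm_num
    · rw [qe_one]
    · have h2 := qe_rec ν n
      have h3 := ih (n + 1) (by omega)
      have h4 := ih n (by omega)
      have : 0 ≤ ((n : ℝ) + 2) * qe ν (n + 2) := by rw [h2]; positivity
      exact nonneg_of_mul_nonneg_right this (by positivity)

theorem qe_pos {ν : ℝ} (hν : 0 < ν) (n : ℕ) : 0 < qe ν (n + 2) := by
  induction n using Nat.strong_induction_on with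
  | _ n ih =>
    have h2 := qe_rec ν n
    have h4 := qe_nonneg hν n
    rcases n with _ | n
    · have : 0 < (((0 : ℕ) : ℝ) + 2) * qe ν (0 + 2) := by
        rw [h2, qe_zero, qe_one]
        simp
        exact hν
      exact pos_of_mul_pos_right this (by positivity)
    · have h3 := ih n (by omega)
      have h5 : qe ν (n + 1 + 1) = qe ν (n + 2) := rfl
      have : 0 < (((n + 1 : ℕ) : ℝ) + 2) * qe ν (n + 1 + 2) := by
        rw [h2, h5]
        have h6 : 0 < (((n + 1 : ℕ) : ℝ) + 1) * qe ν (n + 2) := by positivity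
        have h7 : 0 ≤ ν * qe ν (n + 1) := mul_nonneg hν.le h4
        linarith
      exact pos_of_mul_pos_right this (by positivity)

theorem sum_abs {ν : ℝ} (hν : 0 < ν) (n : ℕ) :
    ∑ j ∈ Finset.range n, |(-ν : ℝ) ^ j / (j.factorial : ℝ)| ≤ Real.exp ν := by
  have h : ∀ j ∈ Finset.range n, |(-ν : ℝ) ^ j / (j.factorial : ℝ)| = ν ^ j / (j.factorial : ℝ) := by
    intro j _
    rw [abs_div, abs_pow, abs_neg, abs_of_pos hν]
    simp
  rw [Finset.sum_congr rfl h]
  exact Real.sum_le_exp_of_nonneg hν.le n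

theorem shift_lim {ν : ℝ} (hν : 1 ≤ ν) (j : ℕ) :
    Tendsto (fun n : ℕ => An ν (n - j) / (n : ℝ) ^ (ν - 1)) atTop (𝓝 (1 / Real.Gamma ν)) := by
  have hν0 : 0 < ν := by linarith
  have h1 := (An_lim hν0).comp (tendsto_sub_atTop_nat j)
  have h2 : Tendsto (fun n : ℕ => (((n - j : ℕ) : ℝ) / n) ^ (ν - 1)) atTop (𝓝 1) := by
    have h3 : Tendsto (fun n : ℕ => 1 - (j : ℝ) * (1 / (n : ℝ))) atTop (𝓝 (1 - (j : ℝ) * 0)) :=
      (tendsto_one_div_atTop_nhds_zero_nat.const_mul (j : ℝ)).const_sub 1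
    rw [mul_zero, sub_zero] at h3
    have h4 : Tendsto (fun n : ℕ => (((n - j : ℕ) : ℝ) / n)) atTop (𝓝 1) := by
      apply h3.congr'
      filter_upwards [eventually_ge_atTop (j + 1)] with n hn
      have hn0 : (n : ℝ) ≠ 0 := by
        have : 0 < n := by omega
        positivity
      rw [Nat.cast_sub (by omega)]
      field_simp
    have h5 := (Real.continuousAt_rpow_const 1 (ν - 1) (Or.inl one_ne_zero)).tendsto.comp h4
    rw [Real.one_rpow] at h5
    exact h5
  have h3 := h1.mul h2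
  rw [mul_one] at h3
  apply h3.congr'
  filter_upwards [eventually_ge_atTop (j + 1)] with n hn
  have hn0 : (0 : ℝ) < n := by
    have : 0 < n := by omega
    exact_mod_cast this
  have hm0 : (0 : ℝ) < ((n - j : ℕ) : ℝ) := by
    have : 0 < n - j := by omega
    exact_mod_cast this
  simp only [Function.comp]
  rw [Real.div_rpow hm0.le hn0.le]
  have h6 := (Real.rpow_pos_of_pos hm0 (ν - 1)).ne'
  have h7 := (Real.rpow_pos_of_pos hn0 (ν - 1)).ne'
  field_simp

theorem An_bd {ν : ℝ} (hν : 1 ≤ ν) : ∃ K : ℝ, 0 < K ∧ ∀ n : ℕ, 1 ≤ n →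
    An ν n ≤ K * (n : ℝ) ^ (ν - 1) := by
  have h1 := (An_lim (show 0 < ν by linarith)).isBoundedUnder_le
  obtain ⟨K, hK⟩ := h1.bddAbove_range
  refine ⟨max K 1, by positivity, fun n hn => ?_⟩
  have h2 : An ν n / (n : ℝ) ^ (ν - 1) ≤ K := hK ⟨n, rfl⟩
  have hn0 : (0 : ℝ) < n := by exact_mod_cast hn
  have h3 := Real.rpow_pos_of_pos hn0 (ν - 1)
  rw [div_le_iff₀ h3] at h2
  refine h2.trans ?_
  exact mul_le_mul_of_nonneg_right (le_max_left _ _) h3.le

theorem qe_lim {ν : ℝ} (hν : 1 ≤ ν) :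
    Tendsto (fun n : ℕ => qe ν n / (n : ℝ) ^ (ν - 1)) atTop
      (𝓝 (Real.exp (-ν) / Real.Gamma ν)) := by
  have hν0 : 0 < ν := by linarith
  have hs : HasSum (fun j : ℕ => (-ν : ℝ) ^ j / (j.factorial : ℝ)) (Real.exp (-ν)) := by
    rw [Real.exp_eq_exp_ℝ]
    exact NormedSpace.expSeries_div_hasSum_exp (-ν : ℝ)
  have hs2 : ∑' j : ℕ, (-ν : ℝ) ^ j / (j.factorial : ℝ) * (1 / Real.Gamma ν) =
      Real.exp (-ν) / Real.Gamma ν := by
    rw [tsum_mul_right, hs.tsum_eq]; ring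
  rw [← hs2]
  have heq : ∀ n : ℕ, qe ν n / (n : ℝ) ^ (ν - 1) = ∑' j : ℕ, (if j ≤ n then
      (-ν : ℝ) ^ j / (j.factorial : ℝ) * (An ν (n - j) / (n : ℝ) ^ (ν - 1)) else 0) := by
    intro n
    rw [tsum_eq_sum (s := Finset.range (n + 1))]
    · unfold qe
      rw [Finset.sum_div]
      apply Finset.sum_congr rfl
      intro j hj
      simp only [Finset.mem_range] at hj
      rw [if_pos (by omega), mul_div_assoc]
    · intro j hj
      simp only [Finset.mem_range] at hj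
      rw [if_neg (by omega)]
  simp_rw [heq]
  obtain ⟨K, hK0, hK⟩ := An_bd hν
  have hsum : Summable (fun j : ℕ => (ν : ℝ) ^ j / (j.factorial : ℝ) * K) :=
    (Real.summable_pow_div_factorial ν).mul_right K
  refine tendsto_tsum_of_dominated_convergence hsum ?_ ?_
  · intro j
    have := (shift_lim hν j).const_mul ((-ν : ℝ) ^ j / (j.factorial : ℝ))
    apply this.congr'
    filter_upwards [eventually_ge_atTop j] with n hn
    rw [if_pos hn]
  · filter_upwards [eventually_ge_atTop 1] with n hn j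
    by_cases hj : j ≤ n
    · rw [if_pos hj, norm_mul, norm_div, norm_pow]
      have e1 : ‖(-ν : ℝ)‖ = ν := by rw [norm_neg, Real.norm_of_nonneg hν0.le]
      have e2 : ‖(j.factorial : ℝ)‖ = j.factorial := by simp
      rw [e1, e2]
      apply mul_le_mul_of_nonneg_left _ (by positivity)
      have hn0 : (0 : ℝ) < n := by exact_mod_cast hn
      have h3 := Real.rpow_pos_of_pos hn0 (ν - 1)
      rw [Real.norm_of_nonneg (div_nonneg (An_pos hν0 _).le h3.le), div_le_iff₀ h3]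
      exact (An_mono' hν (Nat.sub_le n j)).trans (hK n hn)
    · rw [if_neg hj, norm_zero]
      positivity

/-- the limit constant -/
noncomputable def CQ (ν : ℝ) : ℝ := Real.exp (-ν) / Real.Gamma ν

theorem CQ_pos {ν : ℝ} (hν : 0 < ν) : 0 < CQ ν := div_pos (Real.exp_pos _) (Real.Gamma_pos_of_pos hν)

/-- two-sided bounds -/
theorem qe_two {ν : ℝ} (hν : 1 ≤ ν) : ∃ K : ℝ, 1 ≤ K ∧ (∀ n : ℕ, 2 ≤ n →
    (n : ℝ) ^ (ν - 1) ≤ K * qe ν n) ∧ ∀ n : ℕ, 1 ≤ n → qe ν n ≤ K * (n : ℝ) ^ (ν - 1) := by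
  have hν0 : 0 < ν := by linarith
  have h1 := (qe_lim hν).isBoundedUnder_le
  obtain ⟨K1, hK1⟩ := h1.bddAbove_range
  have h2 := (qe_lim hν).inv₀ (CQ_pos hν0).ne'
  obtain ⟨K2, hK2⟩ := h2.isBoundedUnder_le.bddAbove_range
  refine ⟨max 1 (max K1 K2), le_max_left _ _, fun n hn => ?_, fun n hn => ?_⟩
  · have h3 : (qe ν n / (n : ℝ) ^ (ν - 1))⁻¹ ≤ K2 := hK2 ⟨n, rfl⟩
    have hn0 : (0 : ℝ) < n := by
      have : 0 < n := by omega
      exact_mod_cast this
    have h4 : 0 < qe ν n := by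
      have := qe_pos hν0 (n - 2)
      rwa [show n - 2 + 2 = n by omega] at this
    rw [inv_div, div_le_iff₀ h4] at h3
    refine h3.trans (mul_le_mul_of_nonneg_right ?_ h4.le)
    exact (le_max_right _ _).trans (le_max_right _ _)
  · have h3 : qe ν n / (n : ℝ) ^ (ν - 1) ≤ K1 := hK1 ⟨n, rfl⟩
    have hn0 : (0 : ℝ) < n := by exact_mod_cast hn
    have h4 := Real.rpow_pos_of_pos hn0 (ν - 1)
    rw [div_le_iff₀ h4] at h3
    refine h3.trans (mul_le_mul_of_nonneg_right ?_ h4.le)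
    exact (le_max_left _ _).trans (le_max_right _ _)

end RGP
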